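import Pool.Agent.Work.MP_1ce445_plo.Interface
import Pool.Agent.Work.MP_1ce445_stm.ADR

/-! # Block OAV: copy of `MP_1ce445_plt/ADV.lean` for odd `n` -/

namespace Pool.Agent.Work.MP_1ce445_plo

open Finset Pool.Agent.Work.MP_1ce445_co_56 Pool.Agent.Work.MP_1ce445_lin
  Pool.Agent.Work.MP_1ce445_fx Pool.Agent.Work.MP_1ce445_stm Pool.Agent.Work.MP_1ce445_plt
  Pool.Agent.Work.MP_1ce445_pln

lemma OAV_x {n k M : ℕ} (G : Fin k → SimpleGraph (Fin n)) (e : Fin M → Fin k) (θ s : ℝ)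
    (h : SO G e θ s) (i : Fin M) (v : Fin n) (hv : v ∈ low (G (e i)) θ) :
    xx G e θ i v ≤ 2 * M * θ := by
  classical
  have hM : (0 : ℝ) < M := by
    have := h.two
    exact_mod_cast (by omega : 0 < M)
  have hn : (0 : ℝ) < n := by exact_mod_cast h.pos
  have hθ := h.th
  have hb := h.big i
  have h3 : (0 : ℝ) < 3 * (n : ℝ) / (4 * M) := by positivity
  have hc : (0 : ℝ) < (hi (G (e i)) θ).card := lt_of_lt_of_le h3 hb
  unfold xx
  rw [div_le_iff₀ hc]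
  have h1 : (dg (G (e i)) univ v : ℝ) < θ * n := by
    have := (Finset.mem_filter.mp hv).2
    exact this
  have h2 : (dg (G (e i)) (hi (G (e i)) θ) v : ℝ) ≤ dg (G (e i)) univ v := by
    exact_mod_cast ADR_dg_le _ _ _
  have h4 : 2 * M * θ * (3 * (n : ℝ) / (4 * M)) ≤ 2 * M * θ * (hi (G (e i)) θ).card :=
    mul_le_mul_of_nonneg_left hb (by positivity)
  have h5 : 2 * M * θ * (3 * (n : ℝ) / (4 * M)) = 3 / 2 * (θ * n) := by
    field_simp
    ring
  have h6 : 0 < θ * n := by positivity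
  linarith

/-- Block OAV. -/
theorem stmt_OAV : Stmt_OSU → Stmt_OGA → Stmt_OXB → Stmt_OES → Stmt_OAV := by
  intro hSUR hGAI hXBD hERS
  classical
  intro M hM
  obtain ⟨K, hK, hE⟩ := hERS M hM
  have hM0 : (1 : ℝ) ≤ M := by exact_mod_cast (by omega : 1 ≤ M)
  set K1 : ℝ := 32 ^ 2 * K + 1 with hK1
  have hK0 : 0 ≤ 32 ^ 2 * K := by positivity
  have hK1' : 1 ≤ K1 := by linarith
  refine ⟨K1 + 2 * M + 1, 1 / (160 * K1 * M), by linarith, by positivity, ?_⟩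
  intro θ hθ hθ0
  refine ⟨θ / (100 * K1), by positivity, ?_⟩
  intro s hs hs0 n k Δ G e hSt hγ hkn hΔ2' hall hatt
  have a1 : θ * (160 * K1 * M) ≤ 1 := by
    rw [le_div_iff₀ (by positivity)] at hθ0
    exact hθ0
  have a2 : 160 * K1 * θ ≤ 1 := by
    have h : 160 * K1 * θ * 1 ≤ 160 * K1 * θ * (M : ℝ) :=
      mul_le_mul_of_nonneg_left hM0 (by positivity)
    nlinarith
  have a3 : 16 * (M : ℝ) * θ ≤ 1 := by
    have h : 16 * (M : ℝ) * θ * 1 ≤ 16 * (M : ℝ) * θ * K1 :=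
      mul_le_mul_of_nonneg_left hK1' (by positivity)
    have h' : 16 * (M : ℝ) * θ * K1 = (θ * (160 * K1 * M)) / 10 := by ring
    linarith
  have a4 : θ ≤ 1 / 80 := by nlinarith
  have a5 : s * (100 * K1) ≤ θ := by
    rw [le_div_iff₀ (by positivity)] at hs0
    exact hs0
  have a6 : 4 * K1 * s ≤ θ := by nlinarith
  have a7 : 100 * K1 * s ≤ 1 := by linarith
  have a8 : s ≤ 1 / 100 := by nlinarith
  have hn : (0 : ℝ) < n := by exact_mod_cast hSt.pos
  set δ : ℝ := tt n k M ^ 2 / n with hδd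
  have hδ0 : 0 ≤ δ := by positivity
  obtain ⟨hx01, hS1, hS2⟩ := hSUR n k M 2 G e θ s hSt
  obtain ⟨i0, z, hz⟩ := hatt
  have hΔn : Δ ≤ n := by
    rw [← hz]
    exact ADR_dg_n _ _ _
  have g1 := hGAI n k M 2 Δ G e θ s ∅ le_rfl hSt hall
  simp only [Finset.card_empty, Nat.cast_zero, mul_zero, sub_zero, Finset.sdiff_empty] at g1
  have g2 := hE n k Δ G e θ s hSt hγ hkn hΔn hall
  obtain ⟨g3, _⟩ := hXBD n k M G e θ s hSt
  have g4 := hSt.ovl
  have g5 : ∑ v, ∑ i, ((1 : ℝ) - (1 - xx G e θ i v) ^ 2) =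
      (M : ℝ) * n - ∑ v, ∑ i, ((1 : ℝ) - xx G e θ i v) ^ 2 := by
    simp only [Finset.sum_sub_distrib, Finset.sum_const, Finset.card_univ, Fintype.card_fin,
      nsmul_eq_mul, mul_one]
    ring
  rw [g5] at g1
  set Q : ℝ := ∑ v, ∑ i, (1 - xx G e θ i v) ^ 2 with hQ
  set X : ℝ := Xb G e θ with hX
  set O : ℝ := ((ov G e θ).card : ℝ) with hO
  have hO0 : 0 ≤ O := Nat.cast_nonneg _
  have hL0 : (0 : ℝ) ≤ LO G e := Nat.cast_nonneg _
  have hΔ0 : (0 : ℝ) ≤ Δ := Nat.cast_nonneg _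
  set W : ℝ := δ + 1 + s * O + θ * Δ + s * LO G e + θ * X with hW
  have hW0 : 0 ≤ W := by positivity
  have g6 : 32 ^ 2 * ∑ v, ev G e θ v ^ 2 ≤ K1 * W := by
    have h : (32 : ℝ) ^ 2 * ∑ v, ev G e θ v ^ 2 ≤ 32 ^ 2 * (K * W) :=
      mul_le_mul_of_nonneg_left g2 (by positivity)
    have h' : (32 : ℝ) ^ 2 * (K * W) ≤ K1 * W := by
      rw [hK1]
      nlinarith
    linarith
  have g7 : (Δ : ℝ) / n * O ≤ Δ * s := by
    rw [div_mul_eq_mul_div, div_le_iff₀ hn]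
    have : (Δ : ℝ) * O ≤ Δ * (s * n) := mul_le_mul_of_nonneg_left g4 hΔ0
    linarith
  have g8 : (Δ : ℝ) * s ≤ Δ * (1 / 100) := mul_le_mul_of_nonneg_left a8 hΔ0
  have g9 : K1 * (s * O) ≤ θ / 4 * O := by
    have : K1 * s * O ≤ θ / 4 * O := mul_le_mul_of_nonneg_right (by linarith) hO0
    linarith
  have g10 : K1 * (θ * Δ) ≤ 1 / 80 * Δ := by
    have : K1 * θ * Δ ≤ 1 / 80 * Δ := mul_le_mul_of_nonneg_right (by linarith) hΔ0
    linarith
  have g11 : K1 * (s * LO G e) ≤ 1 / 100 * LO G e := by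
    have : K1 * s * LO G e ≤ 1 / 100 * LO G e := mul_le_mul_of_nonneg_right (by linarith) hL0
    linarith
  have g12 : K1 * (θ * X) ≤ 1 / 80 * X := by
    have : K1 * θ * X ≤ 1 / 80 * X := mul_le_mul_of_nonneg_right (by linarith) g3
    linarith
  have g13 : K1 * W = K1 * δ + K1 + K1 * (s * O) + K1 * (θ * Δ) + K1 * (s * LO G e) +
      K1 * (θ * X) := by
    rw [hW]
    ring
  have g14 : (θ - Δ / n) / 4 * O = θ / 4 * O - (Δ : ℝ) / n * O / 4 := by ring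
  have main : Q ≤ (M - 1) * n + K1 * δ + K1 + Δ / 40 + LO G e / 100 := by
    rw [g14] at g1
    linarith
  have hΔ2 : (2 : ℝ) ≤ Δ := by exact_mod_cast hΔ2'
  have h5 := hS2 i0 z
  have h6 : (Δ : ℝ) * (3 / 4) ≤ ∑ v ∈ nb (G (e i0)) z, (1 - xx G e θ i0 v) ^ 2 := by
    have hsub : (low (G (e i0)) θ).filter (fun w => (G (e i0)).Adj z w) ⊆
        nb (G (e i0)) z := by
      intro w hw
      unfold Pool.Agent.Work.MP_1ce445_fx.nb
      rw [Finset.mem_filter] at hw ⊢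
      exact ⟨Finset.mem_univ _, hw.2⟩
    have h7 : ∑ v ∈ (low (G (e i0)) θ).filter (fun w => (G (e i0)).Adj z w),
        (1 - xx G e θ i0 v) ^ 2 ≤ ∑ v ∈ nb (G (e i0)) z, (1 - xx G e θ i0 v) ^ 2 := by
      apply Finset.sum_le_sum_of_subset_of_nonneg hsub
      intro v _ _
      positivity
    refine le_trans ?_ h7
    have h8 : ∀ v ∈ (low (G (e i0)) θ).filter (fun w => (G (e i0)).Adj z w),
        3 / 4 ≤ (1 - xx G e θ i0 v) ^ 2 := by
      intro v hv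
      have hv1 := (Finset.mem_filter.mp hv).1
      have hx := OAV_x G e θ s hSt i0 v hv1
      have := ADR_pow 2 _ _ (hx01 i0 v).2 hx (hx01 i0 v).1
      push_cast at this
      linarith
    have h9 := Finset.card_nsmul_le_sum _ _ _ h8
    rw [nsmul_eq_mul] at h9
    have h10 : ((low (G (e i0)) θ).filter (fun w => (G (e i0)).Adj z w)).card = Δ := by
      rw [← hz]
      unfold Pool.Agent.Work.MP_1ce445_fx.dg
      congr
    rw [h10] at h9
    exact h9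
  push_cast at h5
  have h11 : 0 ≤ (2 * (M : ℝ) + 1) * δ := by positivity
  have h12 : (K1 + 2 * M + 1) * δ = K1 * δ + (2 * (M : ℝ) + 1) * δ := by ring
  rw [h12]
  linarith

end Pool.Agent.Work.MP_1ce445_plo
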