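import Pool.Agent.Work.MP_1ce445_plo.Interface
import Pool.Agent.Work.MP_1ce445_stm.EMO

/-!
Block OEM of the plateaus for odd `n`: the sum of the excess degrees.
-/

namespace Pool.Agent.Work.MP_1ce445_plo

open Finset Pool.Agent.Work.MP_1ce445_co_56 Pool.Agent.Work.MP_1ce445_lin
  Pool.Agent.Work.MP_1ce445_fx Pool.Agent.Work.MP_1ce445_stm Pool.Agent.Work.MP_1ce445_plt
  Pool.Agent.Work.MP_1ce445_pln

/-- `(1 + s)² ≤ 1 + 3 s²` for natural numbers -/
theorem OEM_sq (s : ℕ) : (1 + s) ^ 2 ≤ 1 + 3 * s ^ 2 := by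
  rcases Nat.eq_zero_or_pos s with h | h
  · subst h; simp
  · nlinarith [Nat.mul_le_mul_left s h]

theorem stmt_OEM : MP_1ce445_fx.Stmt_DG2 → Stmt_OEM := by
  intro hDG n k M G e hG hga
  have hone : ∀ l, ∑ v, (dg (G l) univ v - 1) ≤ 3 * (n - gammaT (G l)) ^ 2 :=
    fun l => (EMO_one hDG (G l) (hG.minDeg l)).2
  have hs : ∀ l, (n - gammaT (G l)) ^ 2 ≤ 1 + 3 * (n - 1 - gammaT (G l)) ^ 2 := by
    intro l
    have h1 : n - gammaT (G l) = 1 + (n - 1 - gammaT (G l)) := by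
      have := hga l
      omega
    rw [h1]
    exact OEM_sq _
  have hsq : ∑ l ∈ ot e, (n - 1 - gammaT (G l)) ^ 2 ≤ LO G e ^ 2 := by
    unfold LO
    calc ∑ l ∈ ot e, (n - 1 - gammaT (G l)) ^ 2
        ≤ ∑ l ∈ ot e, (n - 1 - gammaT (G l)) * ∑ l' ∈ ot e, (n - 1 - gammaT (G l')) := by
          refine sum_le_sum fun l hl => ?_
          rw [sq]
          exact Nat.mul_le_mul_left _ (single_le_sum (f := fun l => n - 1 - gammaT (G l))
            (fun _ _ => Nat.zero_le _) hl)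
      _ = (∑ l ∈ ot e, (n - 1 - gammaT (G l))) ^ 2 := by
          rw [← sum_mul, sq]
  have hcard : (ot e).card ≤ k := by
    calc (ot e).card ≤ (univ : Finset (Fin k)).card := card_le_card (subset_univ _)
      _ = k := by simp
  calc ∑ v, EE G e v = ∑ l ∈ ot e, ∑ v, (dg (G l) univ v - 1) := by
        unfold EE
        exact sum_comm
    _ ≤ ∑ l ∈ ot e, 3 * (1 + 3 * (n - 1 - gammaT (G l)) ^ 2) :=
        sum_le_sum fun l _ => (hone l).trans (Nat.mul_le_mul_left _ (hs l))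
    _ = 3 * ((ot e).card + 3 * ∑ l ∈ ot e, (n - 1 - gammaT (G l)) ^ 2) := by
        rw [← mul_sum, sum_add_distrib, ← mul_sum, sum_const, smul_eq_mul, mul_one]
    _ ≤ 3 * (k + 3 * LO G e ^ 2) :=
        Nat.mul_le_mul_left _ (Nat.add_le_add hcard (Nat.mul_le_mul_left _ hsq))

end Pool.Agent.Work.MP_1ce445_plo
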