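import Pool.Agent.Work.MP_1ce445_plo.Interface

/-!
# Block OES: the second moment of `ev` for odd `n` (helper32)

Copy of `MP_1ce445_stm/ERS.lean` for `r = 2`.
-/

namespace Pool.Agent.Work.MP_1ce445_plo

open Finset Pool.Agent.Work.MP_1ce445_co_56 Pool.Agent.Work.MP_1ce445_lin
  Pool.Agent.Work.MP_1ce445_fx Pool.Agent.Work.MP_1ce445_stm Pool.Agent.Work.MP_1ce445_plt
  Pool.Agent.Work.MP_1ce445_pln

theorem OES_seven (a : Fin 7 → ℝ) : (∑ i, a i) ^ 2 ≤ 7 * ∑ i, a i ^ 2 := by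
  have h2 := sq_sum_le_card_mul_sum_sq (s := (univ : Finset (Fin 7))) (f := a)
  simpa using h2

theorem OES_seven2 (a b c d e f g : ℝ) :
    (a + b + c + d + e + f + g) ^ 2 ≤
      7 * (a ^ 2 + b ^ 2 + c ^ 2 + d ^ 2 + e ^ 2 + f ^ 2 + g ^ 2) := by
  have h := OES_seven ![a, b, c, d, e, f, g]
  simpa [Fin.sum_univ_seven] using h

theorem OES_piece (N x b : ℝ) (hN : 0 < N) (hx : 0 ≤ x) (hxb : x ≤ b * N) :
    N * x ^ 2 ≤ N ^ 2 * (b * x) := by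
  calc N * x ^ 2 = N * x * x := by ring
    _ ≤ N * x * (b * N) := mul_le_mul_of_nonneg_left hxb (by positivity)
    _ = N ^ 2 * (b * x) := by ring

/-- `EE v ≤ n`. -/
theorem OES_EE {n k M : ℕ} (G : Fin k → SimpleGraph (Fin n)) (e : Fin M → Fin k)
    (hG : IsFactorization G) (v : Fin n) : EE G e v ≤ n := by
  classical
  have h := sum_degree hG v
  rw [Fintype.card_fin] at h
  have h1 : EE G e v ≤ ∑ l, MP_1ce445_fx.dg (G l) univ v := by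
    unfold EE
    refine (Finset.sum_le_sum (fun l _ => Nat.sub_le _ _)).trans ?_
    exact Finset.sum_le_sum_of_subset (Finset.subset_univ _)
  have h2 : ∑ l, MP_1ce445_fx.dg (G l) univ v = n - 1 := by
    rw [← h]
    refine Finset.sum_congr rfl fun l _ => ?_
    unfold MP_1ce445_fx.dg
    congr
  omega

/-- The pieces. -/
theorem OES_pieces (m N s θ O T D F L X Δ : ℝ) (hm : 2 ≤ m) (hN : 1 ≤ N) (th : 0 < θ)
    (s0 : 0 < s) (s1 : 4 * m * s ≤ 1) (hO : 0 ≤ O)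
    (ovl : O ≤ s * N) (hL : 0 ≤ L) (hLs : L ≤ s * N) (hD : 0 ≤ D) (hD1 : D ≤ m * θ * N ^ 2)
    (hD2 : D ≤ m * Δ * N) (hF : 0 ≤ F) (hF2 : F ≤ 3 * N + 9 * L ^ 2) (hX1 : 0 ≤ X)
    (hX2 : X ≤ 2 * m ^ 2 * θ * N) :
    N * (m * O) ^ 2 ≤ N ^ 2 * (m ^ 2 * (s * O)) ∧
    N * ((m + 1) * T) ^ 2 = N ^ 2 * ((m + 1) ^ 2 * (T ^ 2 / N)) ∧
    N * (2 * m ^ 2 / N * D) ^ 2 ≤ N ^ 2 * (4 * m ^ 6 * (θ * Δ)) ∧
    N * (2 * m ^ 2 / N * F) ^ 2 ≤ N ^ 2 * (16 * m ^ 4 * (3 + 9 * (s * L))) ∧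
    N * (2 * m * X) ^ 2 ≤ N ^ 2 * (8 * m ^ 4 * (θ * X)) ∧
    F ≤ N * (3 + 9 * (s * L)) := by
  have hN0 : 0 < N := by linarith
  have hm0 : 0 ≤ m := by linarith
  have hLN : L ^ 2 ≤ s * L * N := by
    have := mul_le_mul_of_nonneg_left hLs hL
    calc L ^ 2 = L * L := by ring
      _ ≤ L * (s * N) := this
      _ = s * L * N := by ring
  have hFN : F ≤ N * (3 + 9 * (s * L)) := by
    have h1 : N * (3 + 9 * (s * L)) = 3 * N + 9 * (s * L * N) := by ring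
    rw [h1]
    linarith
  refine ⟨?_, ?_, ?_, ?_, ?_, hFN⟩
  · have h := OES_piece N O s hN0 hO ovl
    calc N * (m * O) ^ 2 = m ^ 2 * (N * O ^ 2) := by ring
      _ ≤ m ^ 2 * (N ^ 2 * (s * O)) := mul_le_mul_of_nonneg_left h (by positivity)
      _ = _ := by ring
  · field_simp
  · have hx : D / N ≤ (m * θ) * N := by
      rw [div_le_iff₀ hN0]
      exact hD1.trans (le_of_eq (by ring))
    have hx2 : D / N ≤ m * Δ := by
      rw [div_le_iff₀ hN0]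
      exact hD2
    have h := OES_piece N (D / N) (m * θ) hN0 (div_nonneg hD hN0.le) hx
    calc N * (2 * m ^ 2 / N * D) ^ 2 = (2 * m ^ 2) ^ 2 * (N * (D / N) ^ 2) := by
          rw [show 2 * m ^ 2 / N * D = (2 * m ^ 2) * (D / N) by ring, mul_pow]; ring
      _ ≤ (2 * m ^ 2) ^ 2 * (N ^ 2 * (m * θ * (D / N))) :=
          mul_le_mul_of_nonneg_left h (by positivity)
      _ ≤ (2 * m ^ 2) ^ 2 * (N ^ 2 * (m * θ * (m * Δ))) := by
          refine mul_le_mul_of_nonneg_left (mul_le_mul_of_nonneg_left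
            (mul_le_mul_of_nonneg_left hx2 (by positivity)) (by positivity)) (by positivity)
      _ = _ := by ring
  · have hx2 : F / N ≤ 3 + 9 * (s * L) := by
      rw [div_le_iff₀ hN0]
      exact hFN.trans (le_of_eq (by ring))
    have hx : F / N ≤ 4 * N := by
      have h8 : 8 * s ≤ 1 := by
        have := mul_le_mul_of_nonneg_right hm s0.le
        linarith
      have h1 : s * L ≤ 1 / 64 * N := by
        have h1 : s * L ≤ s * (s * N) := mul_le_mul_of_nonneg_left hLs s0.le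
        have h2 : s * s ≤ 1 / 64 := by nlinarith
        have h3 := mul_le_mul_of_nonneg_right h2 hN0.le
        calc s * L ≤ s * (s * N) := h1
          _ = s * s * N := by ring
          _ ≤ _ := h3
      linarith
    have h := OES_piece N (F / N) 4 hN0 (div_nonneg hF hN0.le) hx
    calc N * (2 * m ^ 2 / N * F) ^ 2 = (2 * m ^ 2) ^ 2 * (N * (F / N) ^ 2) := by
          rw [show 2 * m ^ 2 / N * F = (2 * m ^ 2) * (F / N) by ring, mul_pow]; ring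
      _ ≤ (2 * m ^ 2) ^ 2 * (N ^ 2 * (4 * (F / N))) :=
          mul_le_mul_of_nonneg_left h (by positivity)
      _ ≤ (2 * m ^ 2) ^ 2 * (N ^ 2 * (4 * (3 + 9 * (s * L)))) := by
          refine mul_le_mul_of_nonneg_left (mul_le_mul_of_nonneg_left
            (mul_le_mul_of_nonneg_left hx2 (by norm_num)) (by positivity)) (by positivity)
      _ = _ := by ring
  · have h := OES_piece N X (2 * m ^ 2 * θ) hN0 hX1 hX2
    calc N * (2 * m * X) ^ 2 = (2 * m) ^ 2 * (N * X ^ 2) := by ring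
      _ ≤ (2 * m) ^ 2 * (N ^ 2 * (2 * m ^ 2 * θ * X)) :=
          mul_le_mul_of_nonneg_left h (by positivity)
      _ = _ := by ring

/-- The numbers. -/
theorem OES_num (m N a b c d e f g A B C D E F G q1 q0 q2 q3 q4 S : ℝ) (hN : 0 < N)
    (ha : N * a ≤ N ^ 2 * A) (hb : N * b ≤ N ^ 2 * B) (hc : N * c ≤ N ^ 2 * C)
    (hd : N * d ≤ N ^ 2 * D) (he : N * e ≤ N ^ 2 * E) (hf : f ≤ N ^ 2 * F)
    (hg : g ≤ N ^ 2 * G) (hA : A = m ^ 2 * q1) (hB : B = (m + 1) ^ 2 * q0)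
    (hC : C = 4 * m ^ 6 * q2) (hD : D = 16 * m ^ 4 * (3 + 9 * q3)) (hE : E = 8 * m ^ 4 * q4)
    (hF : F = m ^ 2 * q2) (hG : G = 3 + 9 * q3) (h0 : 0 ≤ q0) (h1 : 0 ≤ q1) (h2 : 0 ≤ q2)
    (h3 : 0 ≤ q3) (h4 : 0 ≤ q4)
    (hS : S = m ^ 2 + (m + 1) ^ 2 + 4 * m ^ 6 + 144 * m ^ 4 + 8 * m ^ 4 + m ^ 2 + 9) :
    (m / N) ^ 2 * (7 * (N * (a + b + c + d + e) + f + g)) ≤
      (7 * m ^ 2 * S + 1) * (q0 + 1 + q1 + q2 + q3 + q4) := by
  have c1 : 0 ≤ m ^ 2 := by positivity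
  have c2 : 0 ≤ (m + 1) ^ 2 := by positivity
  have c3 : 0 ≤ m ^ 6 := by positivity
  have c4 : 0 ≤ m ^ 4 := by positivity
  have e1 : m ^ 2 * q1 ≤ S * q1 := mul_le_mul_of_nonneg_right (by linarith) h1
  have e2 : (m + 1) ^ 2 * q0 ≤ S * q0 := mul_le_mul_of_nonneg_right (by linarith) h0
  have e3 : (4 * m ^ 6 + m ^ 2) * q2 ≤ S * q2 := mul_le_mul_of_nonneg_right (by linarith) h2
  have e4 : (144 * m ^ 4 + 9) * q3 ≤ S * q3 := mul_le_mul_of_nonneg_right (by linarith) h3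
  have e5 : (8 * m ^ 4) * q4 ≤ S * q4 := mul_le_mul_of_nonneg_right (by linarith) h4
  have e6 : 48 * m ^ 4 + 3 ≤ S := by linarith
  have hsum : A + B + C + D + E + F + G ≤ S * (q0 + 1 + q1 + q2 + q3 + q4) := by
    have r1 : S * (q0 + 1 + q1 + q2 + q3 + q4) =
      S * q1 + S * q0 + S * q2 + S * q3 + S * q4 + S := by ring
    rw [r1, hA, hB, hC, hD, hE, hF, hG]
    linarith
  have hN2 : 0 < N ^ 2 := by positivity
  have hmain : N * (a + b + c + d + e) + f + g ≤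
      N ^ 2 * (A + B + C + D + E + F + G) := by
    have r0 : N * (a + b + c + d + e) = N * a + N * b + N * c + N * d + N * e := by ring
    have r1 : N ^ 2 * (A + B + C + D + E + F + G) = N ^ 2 * A + N ^ 2 * B + N ^ 2 * C +
      N ^ 2 * D + N ^ 2 * E + N ^ 2 * F + N ^ 2 * G := by ring
    rw [r1, r0]
    linarith
  have hZ : 0 ≤ q0 + 1 + q1 + q2 + q3 + q4 := by linarith
  calc (m / N) ^ 2 * (7 * (N * (a + b + c + d + e) + f + g))
      ≤ (m / N) ^ 2 * (7 * (N ^ 2 * (A + B + C + D + E + F + G))) :=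
        mul_le_mul_of_nonneg_left (mul_le_mul_of_nonneg_left hmain (by norm_num))
          (by positivity)
    _ = 7 * m ^ 2 * (A + B + C + D + E + F + G) := by
        rw [div_pow, div_mul_eq_mul_div, div_eq_iff hN2.ne']
        ring
    _ ≤ 7 * m ^ 2 * (S * (q0 + 1 + q1 + q2 + q3 + q4)) :=
        mul_le_mul_of_nonneg_left hsum (by positivity)
    _ ≤ (7 * m ^ 2 * S + 1) * (q0 + 1 + q1 + q2 + q3 + q4) := by
        have r1 : (7 * m ^ 2 * S + 1) * (q0 + 1 + q1 + q2 + q3 + q4) =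
          7 * m ^ 2 * (S * (q0 + 1 + q1 + q2 + q3 + q4)) + (q0 + 1 + q1 + q2 + q3 + q4) := by
          ring
        rw [r1]
        linarith

theorem stmt_OES (hE : Stmt_OEM) (hD : Pool.Agent.Work.MP_1ce445_stm.Stmt_DMO)
    (hX : Stmt_OXB) : Stmt_OES := by
  intro M hM
  obtain ⟨S, hS⟩ : ∃ S : ℝ, S = (M : ℝ) ^ 2 + ((M : ℝ) + 1) ^ 2 + 4 * (M : ℝ) ^ 6 +
    144 * (M : ℝ) ^ 4 + 8 * (M : ℝ) ^ 4 + (M : ℝ) ^ 2 + 9 := ⟨_, rfl⟩
  have hS0 : 0 ≤ S := by rw [hS]; positivity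
  refine ⟨7 * (M : ℝ) ^ 2 * S + 1, by
    have : 0 ≤ 7 * (M : ℝ) ^ 2 * S := by positivity
    linarith, ?_⟩
  intro n k Δ G e θ s hSt hγ hkn hΔn hΔ
  obtain ⟨hX1, hX2⟩ := hX n k M G e θ s hSt
  obtain ⟨two, pos, fac, inj, th, th', s0, s1, tnn, big, ovl, def'⟩ := hSt
  have hE2 := hE n k M G e fac hγ
  obtain ⟨hD1, hD2, hD3⟩ := hD n k M Δ G e θ th.le hΔ
  have hD3' := hD3 2 (by omega)
  have hEn : ∀ v, (EE G e v : ℝ) ≤ n := fun v => by exact_mod_cast OES_EE G e fac v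
  have hm : (2 : ℝ) ≤ (M : ℝ) := by exact_mod_cast two
  have hN1 : (1 : ℝ) ≤ (n : ℝ) := by exact_mod_cast pos
  have hN0 : (0 : ℝ) < (n : ℝ) := by linarith
  have hkN : (k : ℝ) ≤ (n : ℝ) := by exact_mod_cast hkn
  have hF2 : ∑ v, (EE G e v : ℝ) ≤ 3 * (n : ℝ) + 9 * (LO G e : ℝ) ^ 2 := by
    have h1 : ((∑ v, EE G e v : ℕ) : ℝ) ≤ ((3 * (k + 3 * LO G e ^ 2) : ℕ) : ℝ) := by
      exact_mod_cast hE2
    push_cast at h1
    linarith
  obtain ⟨P1, P2, P3, P4, P5, hFN⟩ := OES_pieces (M : ℝ) (n : ℝ) s θ ((ov G e θ).card : ℝ)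
    (tt n k M) (∑ v, (dd G e θ v : ℝ)) (∑ v, (EE G e v : ℝ)) (LO G e : ℝ) (Xb G e θ) (Δ : ℝ)
    hm hN1 th s0 s1 (Nat.cast_nonneg _) ovl (Nat.cast_nonneg _) def'
    (Finset.sum_nonneg (fun v _ => Nat.cast_nonneg _)) hD1 hD2
    (Finset.sum_nonneg (fun v _ => Nat.cast_nonneg _)) hF2 hX1 hX2
  have P6 : ∑ v, (dd G e θ v : ℝ) ^ 2 ≤ (n : ℝ) ^ 2 * ((M : ℝ) ^ 2 * (θ * Δ)) := by
    refine hD3'.trans (le_of_eq ?_)
    simp only [show 2 - 1 = 1 from rfl, pow_one]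
    ring
  have P7 : ∑ v, (EE G e v : ℝ) ^ 2 ≤ (n : ℝ) ^ 2 * (3 + 9 * (s * LO G e)) := by
    have h1 : ∑ v, (EE G e v : ℝ) ^ 2 ≤ ∑ v, (n : ℝ) * (EE G e v : ℝ) := by
      refine Finset.sum_le_sum fun v _ => ?_
      rw [pow_two]
      exact mul_le_mul_of_nonneg_right (hEn v) (Nat.cast_nonneg _)
    refine h1.trans ?_
    rw [← Finset.mul_sum]
    calc (n : ℝ) * (∑ v, (EE G e v : ℝ)) ≤ (n : ℝ) * ((n : ℝ) * (3 + 9 * (s * LO G e))) :=
          mul_le_mul_of_nonneg_left hFN hN0.le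
      _ = _ := by ring
  -- the sum
  have hev : ∀ v, ev G e θ v ^ 2 ≤ ((M : ℝ) / n) ^ 2 * (7 * (((M : ℝ) * (ov G e θ).card) ^ 2 +
      (((M : ℝ) + 1) * tt n k M) ^ 2 +
      (2 * (M : ℝ) ^ 2 / n * ∑ v, (dd G e θ v : ℝ)) ^ 2 +
      (2 * (M : ℝ) ^ 2 / n * ∑ v, (EE G e v : ℝ)) ^ 2 + (2 * (M : ℝ) * Xb G e θ) ^ 2 +
      (dd G e θ v : ℝ) ^ 2 + (EE G e v : ℝ) ^ 2)) := by
    intro v
    have h1 : ev G e θ v = (M : ℝ) / n * ((M : ℝ) * (ov G e θ).card +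
        ((M : ℝ) + 1) * tt n k M + 2 * (M : ℝ) ^ 2 / n * ∑ v, (dd G e θ v : ℝ) +
        2 * (M : ℝ) ^ 2 / n * ∑ v, (EE G e v : ℝ) + 2 * (M : ℝ) * Xb G e θ +
        (dd G e θ v : ℝ) + (EE G e v : ℝ)) := by
      rw [ev, bb, Finset.sum_add_distrib]
      ring
    rw [h1, mul_pow]
    refine mul_le_mul_of_nonneg_left ?_ (sq_nonneg _)
    exact OES_seven2 _ _ _ _ _ _ _
  refine (Finset.sum_le_sum (fun v _ => hev v)).trans ?_
  rw [← Finset.mul_sum, ← Finset.mul_sum]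
  have hcard : ∀ c : ℝ, ∑ _v : Fin n, c = (n : ℝ) * c := by
    intro c
    simp
  simp only [Finset.sum_add_distrib, hcard]
  exact OES_num (M : ℝ) (n : ℝ) _ _ _ _ _ _ _ _ _ _ _ _ _ _ (s * (ov G e θ).card)
    (tt n k M ^ 2 / n) (θ * Δ) (s * LO G e) (θ * Xb G e θ) S hN0 P1 (le_of_eq P2) P3 P4 P5 P6 P7
    rfl rfl rfl rfl rfl rfl rfl (div_nonneg (sq_nonneg _) hN0.le)
    (mul_nonneg s0.le (Nat.cast_nonneg _)) (mul_nonneg th.le (Nat.cast_nonneg _))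
    (mul_nonneg s0.le (Nat.cast_nonneg _)) (mul_nonneg th.le hX1) hS

end Pool.Agent.Work.MP_1ce445_plo
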