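import Pool.Agent.Work.MP_1ce445_plo.Interface

/-!
Block OEV: lower bound for the sum of the `x_i(v)` (copy of `MP_1ce445_stm/EVB.lean` with the structure `SO`).
-/

namespace Pool.Agent.Work.MP_1ce445_plo

open Finset Pool.Agent.Work.MP_1ce445_co_56 Pool.Agent.Work.MP_1ce445_lin
  Pool.Agent.Work.MP_1ce445_fx Pool.Agent.Work.MP_1ce445_stm Pool.Agent.Work.MP_1ce445_plt
  Pool.Agent.Work.MP_1ce445_pln

theorem stmt_OEV : Pool.Agent.Work.MP_1ce445_stm.Stmt_DEG → Stmt_OSZ → Stmt_OEV := by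
  intro h1 h2 n k M G e θ s hS v
  obtain ⟨hbb, hsz⟩ := h2 n k M G e θ s hS
  have hdeg := h1 n k M G e θ hS.fac hS.inj v
  have hn : (0 : ℝ) < n := by exact_mod_cast hS.pos
  have hM2 : (2 : ℝ) ≤ M := by exact_mod_cast hS.two
  have hM : (0 : ℝ) < M := by linarith
  have ht := hS.tnn
  have hdd : (0 : ℝ) ≤ dd G e θ v := Nat.cast_nonneg _
  have hEE : (0 : ℝ) ≤ EE G e v := Nat.cast_nonneg _
  have hsum : 0 ≤ bb G e θ + tt n k M + dd G e θ v + EE G e v := by linarith
  refine ⟨?_, ?_⟩
  · unfold ev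
    exact mul_nonneg (by positivity) hsum
  · obtain ⟨B, hB⟩ : ∃ B : ℝ, B = n / M + bb G e θ := ⟨_, rfl⟩
    have hnM : (0 : ℝ) < n / M := by positivity
    have hB0 : 0 < B := by rw [hB]; linarith
    have hcard : ∀ i, (0 : ℝ) < (hi (G (e i)) θ).card := fun i => by
      have h3 := hS.big i
      have h4 : (0 : ℝ) < 3 * (n : ℝ) / (4 * M) := by positivity
      linarith
    have hx : ∀ i, (MP_1ce445_fx.dg (G (e i)) (hi (G (e i)) θ) v : ℝ) / B ≤ xx G e θ i v := by
      intro i
      unfold xx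
      apply div_le_div_of_nonneg_left (Nat.cast_nonneg _) (hcard i)
      rw [hB]
      exact hsz i
    have hdeg' : (∑ i, (MP_1ce445_fx.dg (G (e i)) (hi (G (e i)) θ) v : ℝ)) + dd G e θ v +
        EE G e v + k + 1 = n + M := by exact_mod_cast hdeg
    have htt : tt n k M = k - n + n / M := rfl
    have h5 : B - (bb G e θ + tt n k M + dd G e θ v + EE G e v) ≤
        ∑ i, (MP_1ce445_fx.dg (G (e i)) (hi (G (e i)) θ) v : ℝ) := by
      rw [hB, htt]
      linarith
    calc 1 - ev G e θ v = 1 - (bb G e θ + tt n k M + dd G e θ v + EE G e v) / (n / M) := by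
          unfold ev
          rw [div_div_eq_mul_div]
          ring
      _ ≤ 1 - (bb G e θ + tt n k M + dd G e θ v + EE G e v) / B := by
          have h6 : (bb G e θ + tt n k M + dd G e θ v + EE G e v) / B ≤
              (bb G e θ + tt n k M + dd G e θ v + EE G e v) / (n / M) := by
            apply div_le_div_of_nonneg_left hsum hnM
            rw [hB]
            linarith
          linarith
      _ = (B - (bb G e θ + tt n k M + dd G e θ v + EE G e v)) / B := by
          rw [sub_div, div_self hB0.ne']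
      _ ≤ (∑ i, (MP_1ce445_fx.dg (G (e i)) (hi (G (e i)) θ) v : ℝ)) / B := by
          exact div_le_div_of_nonneg_right h5 hB0.le
      _ = ∑ i, (MP_1ce445_fx.dg (G (e i)) (hi (G (e i)) θ) v : ℝ) / B := by rw [sum_div]
      _ ≤ ∑ i, xx G e θ i v := sum_le_sum fun i _ => hx i

end Pool.Agent.Work.MP_1ce445_plo
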