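import Pool.Agent.Work.MP_1ce445_plo.Interface

/-!
Block OLN: for odd order every total domination number is at most `n - 1` (helper67).
-/

namespace Pool.Agent.Work.MP_1ce445_plo

open Finset Pool.Agent.Work.MP_1ce445_co_56 Pool.Agent.Work.MP_1ce445_lin
  Pool.Agent.Work.MP_1ce445_fx Pool.Agent.Work.MP_1ce445_stm Pool.Agent.Work.MP_1ce445_plt
  Pool.Agent.Work.MP_1ce445_pln

theorem stmt_OLN : Stmt_OLN := by
  intro n k G ho hG l
  have h1 := gammaT_add_one_le (hG.minDeg l) (by simpa using ho)
  rwa [Fintype.card_fin] at h1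

end Pool.Agent.Work.MP_1ce445_plo
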