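import Pool.Agent.Work.MP_1ce445_plo.Interface
import Pool.Agent.Work.MP_1ce445_fx.InterfaceL

/-! # Block OLO: the lower bound for odd `n` from the lower bound for `n - 1` -/

namespace Pool.Agent.Work.MP_1ce445_plo

open Finset Pool.Agent.Work.MP_1ce445_co_56 Pool.Agent.Work.MP_1ce445_lin
  Pool.Agent.Work.MP_1ce445_fx Pool.Agent.Work.MP_1ce445_stm Pool.Agent.Work.MP_1ce445_plt
  Pool.Agent.Work.MP_1ce445_pln

/-- Block OLO. -/
theorem stmt_OLO : Pool.Agent.Work.MP_1ce445_ple.Stmt_SLV →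
    Pool.Agent.Work.MP_1ce445_fx.Stmt_CLN → Stmt_OLO := by
  intro hSLV hCLN M hM ε hε hε1
  obtain ⟨n1, h1⟩ := hSLV M hM (ε / 2) (by linarith) (by linarith)
  have hm : (2 : ℝ) ≤ (M : ℝ) := by exact_mod_cast hM
  refine ⟨max (n1 + 1) (max 3 (⌈Real.exp (2 / ε)⌉₊ + 1)), ?_⟩
  intro n k hn hodd hk hke
  have hn1 : n1 + 1 ≤ n := le_trans (le_max_left _ _) hn
  have hn3 : 3 ≤ n := le_trans (le_trans (le_max_left _ _) (le_max_right _ _)) hn
  have hn2 : ⌈Real.exp (2 / ε)⌉₊ + 1 ≤ n :=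
    le_trans (le_trans (le_max_right _ _) (le_max_right _ _)) hn
  obtain ⟨p, rfl⟩ : ∃ p, n = p + 1 := ⟨n - 1, by omega⟩
  have hp2 : 2 ≤ p := by omega
  have hpe : Even p := by
    rcases hodd with ⟨q, hq⟩
    exact ⟨q, by omega⟩
  have hpR : (2 : ℝ) ≤ (p : ℝ) := by exact_mod_cast hp2
  have hp0 : (0 : ℝ) < (p : ℝ) := by linarith
  have hcast : (((p + 1 : ℕ) : ℝ) - 1) = (p : ℝ) := by
    push_cast
    ring
  rw [hcast] at hke ⊢
  have hk' : (M - 1) * p + 3 * M * M ≤ M * k := by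
    refine le_trans ?_ hk
    have : (M - 1) * p ≤ (M - 1) * (p + 1) := Nat.mul_le_mul_left _ (Nat.le_succ p)
    omega
  have hkp : (k : ℝ) / (p : ℝ) ≤ cend M := by
    rw [div_le_iff₀ hp0]
    exact hke
  have hk1 : 1 ≤ k := by
    by_contra hc
    have hk0 : k = 0 := by omega
    subst hk0
    have h2 : 0 < 3 * M * M := by positivity
    omega
  have hmain := h1 p k (by omega) hpe hk' hkp
  have hP : (P p k : ℝ) ≤ (P (p + 1) k : ℝ) := by
    exact_mod_cast hCLN p k (by omega) hk1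
  refine le_trans ?_ (le_trans hmain hP)
  -- the real numbers
  have hkR : ((M : ℝ) - 1) * ((p : ℝ) + 1) + 3 * M * M ≤ M * k := by
    have h2 : (((M - 1) * (p + 1) + 3 * M * M : ℕ) : ℝ) ≤ ((M * k : ℕ) : ℝ) := by exact_mod_cast hk
    rw [Nat.cast_add, Nat.cast_mul, Nat.cast_sub (by omega : 1 ≤ M)] at h2
    push_cast at h2
    exact h2
  have hτ : 0 < tau (p + 1) k M := by
    unfold tau
    push_cast
    have h3 : 0 < (M : ℝ) * k / ((p : ℝ) + 1) - ((M : ℝ) - 1) := by
      rw [sub_pos, lt_div_iff₀ (by linarith)]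
      have : 0 < 3 * (M : ℝ) * M := by positivity
      linarith
    exact h3
  have hττ : tau (p + 1) k M ≤ tau p k M := by
    unfold tau
    push_cast
    have h4 : (M : ℝ) * k / ((p : ℝ) + 1) ≤ (M : ℝ) * k / (p : ℝ) :=
      div_le_div_of_nonneg_left (by positivity) hp0 (by linarith)
    linarith
  have hτ' : 0 < tau p k M := lt_of_lt_of_le hτ hττ
  have hτ1 : tau p k M < 1 := by
    have h5 : (M : ℝ) * k / (p : ℝ) ≤ M * cend M := by
      rw [mul_div_assoc]
      exact mul_le_mul_of_nonneg_left hkp (by linarith)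
    have h6 : (M : ℝ) * cend M ≤ M * (1 - 1 / ((M : ℝ) + 1)) := by
      refine mul_le_mul_of_nonneg_left ?_ (by linarith)
      unfold cend
      have : 0 < 1 / (4 * (M : ℝ) ^ 4) := by positivity
      linarith
    have h7 : (M : ℝ) * (1 - 1 / ((M : ℝ) + 1)) = (M : ℝ) - 1 + 1 / ((M : ℝ) + 1) := by
      field_simp
      ring
    have h8 : 1 / ((M : ℝ) + 1) < 1 := by
      rw [div_lt_one (by linarith)]
      linarith
    unfold tau
    linarith
  have hl' : 0 < - Real.log (tau p k M) := by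
    have := Real.log_neg hτ' hτ1
    linarith
  have hll : - Real.log (tau p k M) ≤ - Real.log (tau (p + 1) k M) := by
    have := Real.log_le_log hτ hττ
    linarith
  have hl : 0 < - Real.log (tau (p + 1) k M) := lt_of_lt_of_le hl' hll
  have hlp : 0 ≤ Real.log (p : ℝ) := Real.log_nonneg (by linarith)
  have hln : Real.log ((p : ℝ) + 1) ≤ Real.log 2 + Real.log (p : ℝ) := by
    rw [← Real.log_mul (by norm_num) (by linarith)]
    exact Real.log_le_log (by linarith) (by linarith)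
  have hln0 : 0 ≤ Real.log ((p : ℝ) + 1) := Real.log_nonneg (by linarith)
  have hlog2 : Real.log 2 ≤ 1 := by
    have := Real.log_two_lt_d9
    linarith
  have hbig : 2 / ε ≤ Real.log ((p : ℝ) + 1) := by
    rw [Real.le_log_iff_exp_le (by linarith)]
    have h9 : Real.exp (2 / ε) ≤ (⌈Real.exp (2 / ε)⌉₊ : ℝ) := Nat.le_ceil _
    have h10 : (⌈Real.exp (2 / ε)⌉₊ : ℝ) ≤ (p : ℝ) := by
      exact_mod_cast (by omega : ⌈Real.exp (2 / ε)⌉₊ ≤ p)
    linarith
  have hbig2 : 2 ≤ ε * Real.log ((p : ℝ) + 1) := by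
    rw [div_le_iff₀ hε] at hbig
    linarith
  have hnum : (1 - ε) * Real.log ((p : ℝ) + 1) ≤ (1 - ε / 2) * Real.log (p : ℝ) := by
    have h11 : (1 - ε / 2) * (Real.log ((p : ℝ) + 1) - Real.log 2) ≤
        (1 - ε / 2) * Real.log (p : ℝ) :=
      mul_le_mul_of_nonneg_left (by linarith) (by linarith)
    have h12 : (1 - ε / 2) * Real.log 2 ≤ 1 := by
      have : 0 ≤ Real.log 2 := Real.log_nonneg (by norm_num)
      nlinarith
    nlinarith
  have hkey : (1 - ε) * (Real.log ((p + 1 : ℕ) : ℝ) / (- Real.log (tau (p + 1) k M))) ≤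
      (1 - ε / 2) * (Real.log (p : ℝ) / (- Real.log (tau p k M))) := by
    push_cast
    rw [← mul_div_assoc, ← mul_div_assoc]
    calc (1 - ε) * Real.log ((p : ℝ) + 1) / (- Real.log (tau (p + 1) k M))
        ≤ (1 - ε) * Real.log ((p : ℝ) + 1) / (- Real.log (tau p k M)) :=
          div_le_div_of_nonneg_left (mul_nonneg (by linarith) hln0) hl' hll
      _ ≤ (1 - ε / 2) * Real.log (p : ℝ) / (- Real.log (tau p k M)) :=
          div_le_div_of_nonneg_right hnum hl'.le
  refine mul_le_mul_of_nonneg_left ?_ (by positivity)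
  refine pow_le_pow_left₀ ?_ (by linarith) M
  have h13 : (p : ℝ) / M ≤ (p : ℝ) := div_le_self hp0.le (by linarith)
  have h14 : 0 ≤ (1 - ε) * (Real.log ((p + 1 : ℕ) : ℝ) / (- Real.log (tau (p + 1) k M))) := by
    push_cast
    exact mul_nonneg (by linarith) (div_nonneg hln0 hl.le)
  linarith

end Pool.Agent.Work.MP_1ce445_plo
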