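import Pool.Agent.Work.MP_1ce445_plo.Interface

/-!
OPE: the plateaus `M ≥ 2` for all large `n`, from PEV (even `n`), OUP, OLO (odd `n`). The odd case is a copy of
`MP_1ce445_ple/PEV.lean`.
-/

namespace Pool.Agent.Work.MP_1ce445_plo

open Finset Pool.Agent.Work.MP_1ce445_co_56 Pool.Agent.Work.MP_1ce445_lin
  Pool.Agent.Work.MP_1ce445_fx Pool.Agent.Work.MP_1ce445_stm Pool.Agent.Work.MP_1ce445_plt
  Pool.Agent.Work.MP_1ce445_pln

theorem stmt_OPE (hE : Pool.Agent.Work.MP_1ce445_ple.Stmt_PEV) (hU : Stmt_OUP)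
    (hL : Stmt_OLO) : Stmt_OPE := by
  intro M hM ε hε hε1
  obtain ⟨n1, hE⟩ := hE M hM ε hε hε1
  obtain ⟨C, n2, hC, hU⟩ := hU M hM ε hε hε1
  obtain ⟨n3, hL⟩ := hL M hM ε hε hε1
  have hM0 : (0 : ℝ) < M := by
    have : 0 < M := by omega
    exact_mod_cast this
  have hM2 : (2 : ℝ) ≤ M := by exact_mod_cast hM
  refine ⟨C, n1 + n2 + n3 + 3, ?_⟩
  intro n k hn hk hc
  have hn0 : (0 : ℝ) < n := by
    have : 0 < n := by omega
    exact_mod_cast this
  by_cases hev : Even n
  · have hNN : NN n = n := by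
      unfold NN
      obtain ⟨a, ha⟩ := hev
      omega
    rw [hNN] at hc ⊢
    rw [if_pos hev]
    have hc' : (k : ℝ) / n ≤ cend M := by
      rw [div_le_iff₀ hn0]
      exact hc
    obtain ⟨R, hR0, hR1, hR2, hR3⟩ := hE n k (by omega) hev hk hc'
    refine ⟨R, ?_, hR2, hR3⟩
    rw [hR1]
    have h1 : (n : ℝ) - n / M + R = (1 - 1 / (M : ℝ)) * n + R := by
      field_simp
    rw [h1]
  · have hod : Odd n := Nat.not_even_iff_odd.1 hev
    have hNN : NN n + 1 = n := by
      unfold NN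
      obtain ⟨a, ha⟩ := hod
      omega
    have hNR : (NN n : ℝ) = (n : ℝ) - 1 := by
      have : ((NN n + 1 : ℕ) : ℝ) = (n : ℝ) := by rw [hNN]
      push_cast at this
      linarith
    rw [hNR] at hc ⊢
    rw [if_neg hev]
    have hN1 : (1 : ℝ) ≤ (n : ℝ) - 1 := by
      have h3 : 3 ≤ n := by omega
      have : (3 : ℝ) ≤ n := by exact_mod_cast h3
      linarith
    have hN0 : (0 : ℝ) < (n : ℝ) - 1 := by linarith
    have hce : 0 ≤ cend M := by
      have h1 : (0 : ℝ) ≤ cend M * ((n : ℝ) - 1) := le_trans (Nat.cast_nonneg k) hc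
      by_contra h
      push Not at h
      nlinarith
    have hc' : (k : ℝ) / n ≤ cend M := by
      rw [div_le_iff₀ hn0]
      nlinarith
    -- `τ n = M k - (M - 1) n`
    have hkR : ((M : ℝ) - 1) * n + 3 * M * M ≤ M * k := by
      have h1 : (((M - 1) * n + 3 * M * M : ℕ) : ℝ) ≤ ((M * k : ℕ) : ℝ) := by exact_mod_cast hk
      rw [Nat.cast_add, Nat.cast_mul, Nat.cast_mul, Nat.cast_mul, Nat.cast_mul,
        Nat.cast_sub (show 1 ≤ M by omega)] at h1
      push_cast at h1
      exact h1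
    have hτn : tau n k M * n = M * k - ((M : ℝ) - 1) * n := by
      unfold tau
      field_simp
    have hτ1n : 1 / (n : ℝ) ≤ tau n k M := by
      rw [div_le_iff₀ hn0, hτn]
      nlinarith
    have hτ0 : 0 < tau n k M := lt_of_lt_of_le (by positivity) hτ1n
    have hτ1 : tau n k M < 1 := by
      have h1 : tau n k M = M * ((k : ℝ) / n) - ((M : ℝ) - 1) := by
        unfold tau
        rw [mul_div_assoc]
      have h2 : (M : ℝ) * ((k : ℝ) / n) ≤ M * cend M := mul_le_mul_of_nonneg_left hc' hM0.le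
      have h7 : (M : ℝ) * cend M ≤ M - M * (1 / ((M : ℝ) + 1)) := by
        unfold cend
        have h6 : 0 < 1 / (4 * (M : ℝ) ^ 4) := by positivity
        nlinarith
      have h8 : 0 < (M : ℝ) * (1 / ((M : ℝ) + 1)) := by positivity
      rw [h1]
      linarith
    have hlo := hL n k (by omega) hod hk hc
    have hup := hU n k (by omega) hod hτ1n hc'
    have hLg : 0 < - Real.log (tau n k M) := by
      have := Real.log_neg hτ0 hτ1
      linarith
    set ρ : ℝ := Real.log n / (- Real.log (tau n k M)) with hρ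
    set N : ℝ := (n : ℝ) - 1 with hN
    have hρ0 : 0 ≤ ρ := div_nonneg (Real.log_natCast_nonneg n) hLg.le
    have hB0 : (0 : ℝ) ≤ N - N / M := by
      rw [sub_nonneg, div_le_iff₀ hM0]
      nlinarith
    have hpk : (0 : ℝ) < N ^ (k - M) := by positivity
    set X : ℝ := (P n k : ℝ) / N ^ (k - M) with hX
    have hX0 : 0 ≤ X := by positivity
    have hPX : (P n k : ℝ) = N ^ (k - M) * X := by
      rw [hX]; field_simp
    have hMne : M ≠ 0 := by omega
    set Y : ℝ := X ^ ((M : ℝ)⁻¹) with hY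
    have hY0 : 0 ≤ Y := Real.rpow_nonneg hX0 _
    have hYM : Y ^ M = X := Real.rpow_inv_natCast_pow hX0 hMne
    have hlo' : (N - N / M + (1 - ε) * ρ) ≤ Y := by
      have h1 : (N - N / M + (1 - ε) * ρ) ^ M ≤ Y ^ M := by
        rw [hYM]
        rw [hPX] at hlo
        exact le_of_mul_le_mul_left hlo hpk
      exact le_of_pow_le_pow_left₀ hMne hY0 h1
    have hup' : Y ≤ (N - N / M + (1 + ε) * ρ + C) := by
      have h1 : Y ^ M ≤ (N - N / M + (1 + ε) * ρ + C) ^ M := by
        rw [hYM]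
        rw [hPX] at hup
        exact le_of_mul_le_mul_left hup hpk
      have h2 : 0 ≤ (1 + ε) * ρ := by positivity
      exact le_of_pow_le_pow_left₀ hMne (by linarith) h1
    refine ⟨Y - (N - N / M), ?_, by linarith, by linarith⟩
    have h1 : (1 - 1 / (M : ℝ)) * N + (Y - (N - N / M)) = Y := by
      field_simp
      ring
    rw [h1, hYM]
    exact hPX

end Pool.Agent.Work.MP_1ce445_plo
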