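import Pool.Agent.Work.MP_1ce445_plo.Interface
import Pool.Agent.Work.MP_1ce445_pln.SB3

/-!
Block OSB: from OST to the situation `SO` (copy of `MP_1ce445_pln/SB3.lean`).
-/

namespace Pool.Agent.Work.MP_1ce445_plo

open Finset Pool.Agent.Work.MP_1ce445_co_56 Pool.Agent.Work.MP_1ce445_lin
  Pool.Agent.Work.MP_1ce445_fx Pool.Agent.Work.MP_1ce445_stm Pool.Agent.Work.MP_1ce445_plt
  Pool.Agent.Work.MP_1ce445_pln

/-- the loss of the other colours is small -/
theorem OSB_loss {n k M : ℕ} (hM : 2 ≤ M) {G : Fin k → SimpleGraph (Fin n)} {e : Fin M → Fin k}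
    (hn : 2 ≤ n) (hG : ∀ l, gammaT (G l) + 1 ≤ n) (he : Function.Injective e) {κ : ℝ}
    (hκ : 0 < κ) (hκn : 1 ≤ κ * n)
    (hg : ∀ i, (gammaT (G (e i)) : ℝ) ≤ (1 - 1 / M + κ) * n)
    (hp : (1 - 1 / (M : ℝ)) ^ M * ((n : ℝ) - 1) ^ k ≤ ∏ j, (gammaT (G j) : ℝ)) :
    (LO G e : ℝ) ≤ 4 * M * κ * n := by
  obtain ⟨N, rfl⟩ : ∃ N, n = N + 1 := ⟨n - 1, by omega⟩
  have hN : 0 < N := by omega
  have hN' : (0 : ℝ) < N := by exact_mod_cast hN
  have hM2 : (2 : ℝ) ≤ M := by exact_mod_cast hM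
  have hM0 : (0 : ℝ) < M := by linarith
  have hMk : M ≤ k := by simpa using Fintype.card_le_of_injective e he
  have hinv : 1 / (M : ℝ) ≤ 1 / 2 := one_div_le_one_div_of_le (by norm_num) hM2
  have hinv0 : 0 < 1 / (M : ℝ) := by positivity
  have hcast : ((N + 1 : ℕ) : ℝ) = N + 1 := by push_cast; ring
  rw [hcast] at hκn hp hg ⊢
  rw [add_sub_cancel_right] at hp
  set p : ℝ := 1 - 1 / (M : ℝ) with hpdef
  have hp2 : 1 / 2 ≤ p := by linarith
  have hp0 : 0 < p := by linarith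
  have hp1 : p ≤ 1 := by linarith
  have hle : ∀ l, gammaT (G l) ≤ N := fun l => by have := hG l; omega
  have h := stmt_PRR k N M (fun l => gammaT (G l)) e (p * N) (M * (2 * (κ * (N + 1)))) hN
    (by omega) he (by positivity) (by positivity) hle (by
      calc (∑ i, (gammaT (G (e i)) : ℝ)) ≤ ∑ _i : Fin M, (p + κ) * (N + 1) :=
            sum_le_sum (fun i _ => hg i)
        _ = M * ((p + κ) * (N + 1)) := by
            rw [sum_const, card_univ, Fintype.card_fin, nsmul_eq_mul]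
        _ ≤ M * (p * N + 2 * (κ * (N + 1))) := by
            apply mul_le_mul_of_nonneg_left _ hM0.le
            nlinarith
        _ = M * (p * N) + M * (2 * (κ * (N + 1))) := by ring)
  have hLs : (LO G e : ℝ) = ∑ l ∈ ot e, ((N : ℝ) - gammaT (G l)) := by
    unfold LO
    rw [Nat.cast_sum]
    apply sum_congr rfl
    intro l _
    rw [Nat.add_sub_cancel, Nat.cast_sub (hle l)]
  rw [← hLs] at h
  have h1 := hp.trans h
  have h2 : (N : ℝ) ^ (k - M) * (p * N) ^ M = p ^ M * (N : ℝ) ^ k := by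
    rw [mul_pow, ← mul_assoc, mul_comm ((N : ℝ) ^ (k - M)) (p ^ M), mul_assoc, ← pow_add,
      Nat.sub_add_cancel hMk]
  rw [h2] at h1
  have h3 : 0 < p ^ M * (N : ℝ) ^ k := by positivity
  have h4 : 1 ≤ Real.exp (M * (2 * (κ * (N + 1))) / (p * N) - (LO G e : ℝ) / N) := by
    by_contra hlt
    push Not at hlt
    have := mul_lt_mul_of_pos_left hlt h3
    linarith
  rw [Real.one_le_exp_iff] at h4
  have h5 : (M : ℝ) * (2 * (κ * (N + 1))) / (p * N) ≤ 4 * M * κ * (N + 1) / N := by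
    rw [div_le_div_iff₀ (by positivity) hN']
    have h6 : 0 ≤ (M : ℝ) * (κ * (N + 1)) * N := by positivity
    have h7 := mul_le_mul_of_nonneg_left hp2 h6
    nlinarith
  have h6 : (LO G e : ℝ) / N ≤ 4 * M * κ * (N + 1) / N := by linarith
  exact (div_le_div_iff_of_pos_right hN').1 h6

theorem stmt_OSB : MP_1ce445_stm.Stmt_DEG → Stmt_OLN → Stmt_OEM → Stmt_OST → Stmt_OSB := by
  intro hDEG hOLN hOEM hOST M hM θ s hθ hθ' hs hs'
  classical
  have hM2 : (2 : ℝ) ≤ M := by exact_mod_cast hM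
  have hM0 : (0 : ℝ) < M := by linarith
  obtain ⟨κ, hκ, hκs, hκM, hκ3⟩ : ∃ κ : ℝ, 0 < κ ∧ 4 * M * κ ≤ s ∧ 4 * (M : ℝ) ^ 2 * κ ≤ 1 ∧
      1152 * (M : ℝ) ^ 3 * κ ≤ 1 := by
    have hs1 : s ≤ 1 := by nlinarith
    have e1 : 1152 * (M : ℝ) ^ 3 * (s / (1152 * (M : ℝ) ^ 3)) = s := by field_simp
    have h0 : 0 < s / (1152 * (M : ℝ) ^ 3) := by positivity
    refine ⟨s / (1152 * (M : ℝ) ^ 3), h0, ?_, ?_, ?_⟩
    · refine le_trans (mul_le_mul_of_nonneg_right ?_ h0.le) e1.le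
      have : (4 : ℝ) ≤ M ^ 2 := by nlinarith
      nlinarith
    · have h1 : 4 * (M : ℝ) ^ 2 ≤ 1152 * (M : ℝ) ^ 3 := by
        have : (0 : ℝ) ≤ M ^ 2 := by positivity
        nlinarith
      have h2 := mul_le_mul_of_nonneg_right h1 h0.le
      linarith
    · linarith
  obtain ⟨n0, hST⟩ := hOST M hM θ κ hθ hκ
  obtain ⟨n1, hn1⟩ := exists_nat_ge (24 * (M : ℝ) / κ)
  refine ⟨max n0 (max n1 2), ?_⟩
  intro n k hn hodd htt0 hkn G hG hprod
  have hn2 : 2 ≤ n := ((le_max_right _ _).trans (le_max_right _ _)).trans hn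
  have hnn1 : n1 ≤ n := ((le_max_left _ _).trans (le_max_right _ _)).trans hn
  have hn0 : 0 < n := by omega
  have hn' : (0 : ℝ) < n := by exact_mod_cast hn0
  have hlarge : 24 * (M : ℝ) ≤ κ * n := by
    have h1 : 24 * (M : ℝ) / κ ≤ n := hn1.trans (by exact_mod_cast hnn1)
    rw [div_le_iff₀ hκ] at h1
    linarith
  have hκn1 : 1 ≤ κ * n := by linarith
  have hγ := hOLN n k G hodd hG
  obtain ⟨e, he, hg, hhi, hov⟩ := hST n k ((le_max_left _ _).trans hn) hodd hkn G hG hprod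
  have hLs := OSB_loss hM hn2 hγ he hκ hκn1 hg hprod
  have hk3 := SB3_k hM hn0 hkn
  obtain ⟨y, hy⟩ : ∃ y : ℝ, y = (n : ℝ) / M := ⟨_, rfl⟩
  have hyn : (n : ℝ) = M * y := by
    rw [hy]
    field_simp
  have hy0 : 0 < y := by
    rw [hy]
    positivity
  have h3M : (n : ℝ) / (3 * M) = y / 3 := by
    rw [hy]
    field_simp
  rw [h3M] at hk3
  have hkn' : (k : ℝ) ≤ n := by linarith
  -- the vertices in no set `hi`
  set R0 : Finset (Fin n) := univ.filter (fun v => ∀ i, v ∉ hi (G (e i)) θ) with hR0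
  have hEE : ∀ v ∈ R0, y / 4 ≤ (EE G e v : ℝ) := by
    intro v hv
    rw [hR0, mem_filter] at hv
    have h1 := hDEG n k M G e θ hG he v
    have h2 : ∑ i, MP_1ce445_fx.dg (G (e i)) univ v =
        ∑ i, MP_1ce445_fx.dg (G (e i)) (hi (G (e i)) θ) v + dd G e θ v := by
      unfold dd
      rw [← sum_add_distrib]
      exact sum_congr rfl fun i _ => DEG_split _ _ _
    rw [← h2] at h1
    have h3 : (∑ i, (MP_1ce445_fx.dg (G (e i)) univ v : ℝ)) ≤ M * (θ * n) := by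
      calc (∑ i, (MP_1ce445_fx.dg (G (e i)) univ v : ℝ)) ≤ ∑ _i : Fin M, θ * n := by
            apply sum_le_sum
            intro i _
            have h4 := hv.2 i
            unfold hi at h4
            simp only [mem_filter, mem_univ, true_and, not_le] at h4
            exact h4.le
        _ = M * (θ * n) := by
            rw [sum_const, card_univ, Fintype.card_fin, nsmul_eq_mul]
    have h4 : (∑ i, (MP_1ce445_fx.dg (G (e i)) univ v : ℝ)) + EE G e v + k + 1 = n + M := by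
      exact_mod_cast h1
    have h5 : (M : ℝ) * (θ * n) ≤ y / 12 := by
      have h6 : 12 * (M : ℝ) ^ 2 * θ * y ≤ 1 * y := mul_le_mul_of_nonneg_right hθ' hy0.le
      rw [hyn]
      nlinarith
    linarith
  have hR0c : (R0.card : ℝ) ≤ κ * n := by
    have h1 : (R0.card : ℝ) * (y / 4) ≤ ∑ v ∈ R0, (EE G e v : ℝ) := by
      rw [← nsmul_eq_mul]
      exact card_nsmul_le_sum _ _ _ hEE
    have h2 : ∑ v ∈ R0, (EE G e v : ℝ) ≤ ∑ v, (EE G e v : ℝ) :=
      sum_le_sum_of_subset_of_nonneg (subset_univ _) (fun v _ _ => Nat.cast_nonneg _)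
    have h3 : (∑ v, (EE G e v : ℝ)) ≤ 3 * (k + 3 * (LO G e : ℝ) ^ 2) := by
      exact_mod_cast hOEM n k M G e hG hγ
    have h4 : (LO G e : ℝ) ^ 2 ≤ (4 * M * κ * n) ^ 2 :=
      pow_le_pow_left₀ (Nat.cast_nonneg _) hLs 2
    have h5 : (R0.card : ℝ) * (y / 4) ≤
        (12 * (M : ℝ) + 576 * (M : ℝ) ^ 3 * κ * (κ * n)) * (y / 4) := by
      calc (R0.card : ℝ) * (y / 4) ≤ 3 * (n + 3 * (4 * M * κ * n) ^ 2) := by linarith
        _ = 12 * (n / 4) + (576 * (M : ℝ) ^ 2 * κ * (κ * n)) * (n / 4) := by ring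
        _ = 12 * (M * y / 4) + (576 * (M : ℝ) ^ 2 * κ * (κ * n)) * (M * y / 4) := by rw [← hyn]
        _ = (12 * (M : ℝ) + 576 * (M : ℝ) ^ 3 * κ * (κ * n)) * (y / 4) := by ring
    have h6 : (R0.card : ℝ) ≤ 12 * (M : ℝ) + 576 * (M : ℝ) ^ 3 * κ * (κ * n) :=
      le_of_mul_le_mul_right h5 (by positivity)
    have h7 : 1152 * (M : ℝ) ^ 3 * κ * (κ * n) ≤ 1 * (κ * n) :=
      mul_le_mul_of_nonneg_right (by linarith) (by positivity)
    linarith
  have hcov : ∀ j : Fin M, (n : ℝ) ≤ R0.card + (hi (G (e j)) θ).card +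
      ∑ i ∈ univ.erase j, ((hi (G (e i)) θ).card : ℝ) := by
    intro j
    have h1 : (univ : Finset (Fin n)) ⊆ R0 ∪ univ.biUnion (fun i => hi (G (e i)) θ) := by
      intro v _
      rw [mem_union, mem_biUnion]
      by_cases h : ∃ i, v ∈ hi (G (e i)) θ
      · obtain ⟨i, hi⟩ := h
        exact Or.inr ⟨i, mem_univ _, hi⟩
      · left
        rw [hR0, mem_filter]
        exact ⟨mem_univ _, fun i hi => h ⟨i, hi⟩⟩
    have h2 := (card_le_card h1).trans (card_union_le _ _)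
    have h3 : (univ.biUnion (fun i => hi (G (e i)) θ)).card ≤ ∑ i, (hi (G (e i)) θ).card :=
      card_biUnion_le
    rw [card_univ, Fintype.card_fin] at h2
    have h4 : ∑ i, (hi (G (e i)) θ).card = (hi (G (e j)) θ).card +
        ∑ i ∈ univ.erase j, (hi (G (e i)) θ).card := (add_sum_erase _ _ (mem_univ j)).symm
    have h5 : n ≤ R0.card + (hi (G (e j)) θ).card +
        ∑ i ∈ univ.erase j, (hi (G (e i)) θ).card := by omega
    exact_mod_cast h5
  have hκs' : κ ≤ s := by nlinarith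
  have hθ4 : 4 * (M : ℝ) ^ 2 * θ ≤ 1 := by
    have : 0 ≤ (M : ℝ) ^ 2 * θ := by positivity
    linarith
  refine ⟨e, ⟨hM, hn0, hG, he, hθ, hθ4, hs, hs', htt0, ?_, ?_, ?_⟩, ?_⟩
  · intro j
    have h1 := hcov j
    have h2 : (∑ i ∈ univ.erase j, ((hi (G (e i)) θ).card : ℝ)) ≤
        ((M : ℝ) - 1) * ((1 / M + κ) * n) := by
      calc (∑ i ∈ univ.erase j, ((hi (G (e i)) θ).card : ℝ))
          ≤ ∑ _i ∈ univ.erase j, (1 / (M : ℝ) + κ) * n := sum_le_sum (fun i _ => hhi i)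
        _ = ((M : ℝ) - 1) * ((1 / M + κ) * n) := by
            rw [sum_const, card_erase_of_mem (mem_univ j), card_univ, Fintype.card_fin,
              nsmul_eq_mul, Nat.cast_sub (by omega)]
            simp
    have h3 : (1 / (M : ℝ) + κ) * n = y + κ * n := by
      rw [hy]
      ring
    have h4 : 3 * (n : ℝ) / (4 * M) = 3 / 4 * y := by
      rw [hy]
      field_simp
    have h5 : (M : ℝ) * (κ * n) ≤ y / 4 := by
      have h6 : 4 * (M : ℝ) ^ 2 * κ * y ≤ 1 * y := mul_le_mul_of_nonneg_right hκM hy0.le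
      rw [hyn]
      nlinarith
    rw [h3] at h2
    rw [h4]
    have h6 : ((M : ℝ) - 1) * (y + κ * n) = n - y + M * (κ * n) - κ * n := by
      rw [hyn]
      ring
    rw [h6] at h2
    linarith
  · exact hov.trans (mul_le_mul_of_nonneg_right hκs' hn'.le)
  · exact hLs.trans (mul_le_mul_of_nonneg_right hκs hn'.le)
  · intro i
    refine (hhi i).trans (mul_le_mul_of_nonneg_right ?_ hn'.le)
    linarith

end Pool.Agent.Work.MP_1ce445_plo
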