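import Pool.Agent.Work.MP_1ce445_plo.Interface
import Pool.Agent.Work.MP_1ce445_stm.STA
import Pool.Agent.Work.MP_1ce445_upg.UPU

set_option autoImplicit false

/-!
# Block OST: stability of factorizations with a large product in the plateaus, odd `n`

Copy of `MP_1ce445_pln/ST3.lean` (helper61) with `NN n = n - 1`.
-/

namespace Pool.Agent.Work.MP_1ce445_plo

open Finset Pool.Agent.Work.MP_1ce445_co_56 Pool.Agent.Work.MP_1ce445_lin
  Pool.Agent.Work.MP_1ce445_fx Pool.Agent.Work.MP_1ce445_stm Pool.Agent.Work.MP_1ce445_plt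
  Pool.Agent.Work.MP_1ce445_pln

/-- `n ^ a ≤ (1 + η/4) (n - 1) ^ a` for `a ≤ η n / 8`. -/
theorem OST_pow {n η : ℝ} {a : ℕ} (hn : 1 ≤ n) (hη0 : 0 < η) (hη1 : η ≤ 1)
    (ha : 8 * (a : ℝ) ≤ η * n) : n ^ a ≤ (1 + η / 4) * (n - 1) ^ a := by
  have hn0 : 0 < n := by linarith
  have h1 : (1 : ℝ) + a * (-(1 / n)) ≤ (1 + -(1 / n)) ^ a := by
    apply one_add_mul_le_pow
    have : 1 / n ≤ 1 := by
      rw [div_le_one hn0]
      exact hn
    linarith
  have h2 : (a : ℝ) / n ≤ η / 8 := by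
    rw [div_le_iff₀ hn0]
    linarith
  have h3 : (1 : ℝ) - η / 8 ≤ (1 + -(1 / n)) ^ a := by
    have h4 : (a : ℝ) * (-(1 / n)) = - (a / n) := by ring
    rw [h4] at h1
    linarith
  have h5 : (n - 1) ^ a = n ^ a * (1 + -(1 / n)) ^ a := by
    rw [← mul_pow]
    congr 1
    field_simp
    ring
  rw [h5]
  have h6 : (0 : ℝ) < n ^ a := by positivity
  have h7 : (1 : ℝ) ≤ (1 + η / 4) * (1 + -(1 / n)) ^ a := by
    have h8 : (1 + η / 4) * (1 - η / 8) ≤ (1 + η / 4) * (1 + -(1 / n)) ^ a :=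
      mul_le_mul_of_nonneg_left h3 (by linarith)
    nlinarith
  calc n ^ a = n ^ a * 1 := by ring
    _ ≤ n ^ a * ((1 + η / 4) * (1 + -(1 / n)) ^ a) := mul_le_mul_of_nonneg_left h7 h6.le
    _ = _ := by ring

theorem stmt_OST : Pool.Agent.Work.MP_1ce445_pln.Stmt_RNG →
    Pool.Agent.Work.MP_1ce445_pln.Stmt_CR4 → Pool.Agent.Work.MP_1ce445_pln.Stmt_SE3 →
    Stmt_OST := by
  intro h0 h1 h2 M hM θ κ hθ hκ
  have hM2 : (2 : ℝ) ≤ M := by exact_mod_cast hM
  have hM0 : (0 : ℝ) < M := by linarith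
  obtain ⟨ε₀, hε₀, hce, hrng⟩ := h0 M hM
  have hM1 : 0 < 1 / ((M : ℝ) + 1) := by positivity
  obtain ⟨κ', hκ0, hκ2, hκM⟩ : ∃ κ' : ℝ, 0 < κ' ∧ κ' ≤ κ / 2 ∧ 4 * (M : ℝ) ^ 2 * κ' ≤ 1 := by
    refine ⟨min (κ / 2) (1 / (4 * (M : ℝ) ^ 2)), by positivity, min_le_left _ _, ?_⟩
    have h3 : min (κ / 2) (1 / (4 * (M : ℝ) ^ 2)) ≤ 1 / (4 * (M : ℝ) ^ 2) := min_le_right _ _
    have h4 : 4 * (M : ℝ) ^ 2 * (1 / (4 * (M : ℝ) ^ 2)) = 1 := by field_simp
    have h5 : 4 * (M : ℝ) ^ 2 * min (κ / 2) (1 / (4 * (M : ℝ) ^ 2)) ≤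
        4 * (M : ℝ) ^ 2 * (1 / (4 * (M : ℝ) ^ 2)) := mul_le_mul_of_nonneg_left h3 (by positivity)
    linarith
  obtain ⟨η, hη0, hη1, hSET⟩ := h2 M hM ε₀ κ' hε₀ hκ0 hκM
  obtain ⟨η', hη'0, hη'η, hη'2, hη'3, hη'4⟩ : ∃ η' : ℝ, 0 < η' ∧ η' ≤ η / 2 ∧ η' ≤ 2 / 5 * η ^ 2 ∧
      η' ≤ 4 / 3 * ε₀ ∧ η' ≤ 1 / 5 :=
    ⟨min (min (η / 2) (2 / 5 * η ^ 2)) (min (4 / 3 * ε₀) (1 / 5)), by positivity,
      (min_le_left _ _).trans (min_le_left _ _), (min_le_left _ _).trans (min_le_right _ _),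
      (min_le_right _ _).trans (min_le_left _ _), (min_le_right _ _).trans (min_le_right _ _)⟩
  obtain ⟨u, t, R, K, hu0, hu1, huη', hd, ht0, htκ, hK, hft', hR⟩ := STA_const hθ hκ hη'0
  have huη : u ≤ η / 4 := by linarith
  have hft : (1 + t) ^ K < 1 + η / 2 := by linarith
  have hu20 : u ≤ 1 / 20 := by linarith
  have hsq : Real.sqrt (10 * u) ≤ η := by
    apply Real.sqrt_le_iff.2
    constructor
    · exact hη0.le
    · linarith
  have hτ0 : 0 < u ^ 2 / 30 := by positivity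
  obtain ⟨N1, hN1⟩ := exists_nat_gt (2 * R / t)
  obtain ⟨N2, hN2⟩ := exists_nat_gt (1 / (u ^ 2 / 30))
  obtain ⟨N3, hN3⟩ := exists_nat_gt ((K : ℝ) / (6 * u))
  obtain ⟨N4, hN4⟩ := exists_nat_gt (8 * (K : ℝ) / η)
  refine ⟨N1 + N2 + N3 + N4 + 2, fun n k hn hev hkM G hG hprod => ?_⟩
  have hnR : ((N1 : ℝ) + N2 + N3 + N4 + 2) ≤ n := by exact_mod_cast hn
  have hN4' : (0 : ℝ) ≤ N4 := Nat.cast_nonneg _
  have hN1' : (0 : ℝ) ≤ N1 := Nat.cast_nonneg _
  have hN2' : (0 : ℝ) ≤ N2 := Nat.cast_nonneg _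
  have hN3' : (0 : ℝ) ≤ N3 := Nat.cast_nonneg _
  have hnpos : (0 : ℝ) < n := by linarith
  have hn0 : 0 < n := by omega
  have hτn : 1 ≤ u ^ 2 / 30 * n := by
    have h5 : 1 / (u ^ 2 / 30) < n := by linarith
    rw [div_lt_iff₀ hτ0] at h5
    linarith
  have hRn : (R : ℝ) / n ≤ t / 2 := by
    have h5 : 2 * R / t < n := by linarith
    rw [div_lt_iff₀ ht0] at h5
    rw [div_le_iff₀ hnpos]
    linarith
  have hKn : (K : ℝ) ≤ 6 * u * n := by
    have h5 : (K : ℝ) / (6 * u) < n := by linarith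
    rw [div_lt_iff₀ (by positivity)] at h5
    linarith
  have hτu : u ^ 2 / 30 ≤ u := by nlinarith
  have hn1 : 1 / (n : ℝ) ≤ u := by
    rw [div_le_iff₀ hnpos]
    exact hτn.trans (mul_le_mul_of_nonneg_right hτu hnpos.le)
  have hx0 : 0 ≤ (k : ℝ) / n := by positivity
  have hx1 : (k : ℝ) / n ≤ 1 := by linarith
  have hkn : k ≤ n := by
    rw [div_le_one hnpos] at hx1
    exact_mod_cast hx1
  have hinv : 0 < 1 / (n : ℝ) := by positivity
  set c : ℝ := (k : ℝ) / n + 1 / n + 2 * u with hc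
  have hcn : c * n = k + 1 + 2 * u * n := by
    rw [hc]
    field_simp
  have hcl : 0 ≤ c := by
    rw [hc]
    linarith
  have hce2 : c ≤ cend M + ε₀ := by
    rw [hc]
    linarith
  have hcu : c ≤ 1 - 1 / ((M : ℝ) + 1) := hce2.trans hce
  have hKη : 8 * (K : ℝ) ≤ η * n := by
    have h5 : 8 * (K : ℝ) / η < n := by linarith
    rw [div_lt_iff₀ hη0] at h5
    linarith
  have hNN : NN n = n - 1 := by
    unfold NN
    obtain ⟨m, hm⟩ := hev
    omega
  have hNR : ((NN n : ℕ) : ℝ) = (n : ℝ) - 1 := by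
    rw [hNN, Nat.cast_sub (by omega), Nat.cast_one]
  have hn1pos : (0 : ℝ) < (n : ℝ) - 1 := by linarith
  have hnk : (0 : ℝ) < ((n : ℝ) - 1) ^ k := by positivity
  rcases h1 n k R G u t hG hu0 hu1 hτn hkn (by linarith) with
    h5 | ⟨A, W, Vg, hA, hVg, hsy, hme, hlo, hup, hγ, hγN⟩
  · exfalso
    rw [hNR] at h5
    have h6 := hprod.trans h5
    have h7 := le_of_mul_le_mul_right h6 hnk
    have h8 := STA_exp hM
    linarith
  set d : ℝ := (u ^ 2 / 30) ^ 2 with hdd
  set T : Fin n → Finset (Fin k) := thk G A d with hT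
  have hTA : ∀ v, T v ⊆ A := by
    intro v j hj
    rw [hT, STA_mem] at hj
    exact hj.1
  have hAK : A.card ≤ K := by
    have h5 : (A.card : ℝ) ≤ K := hA.trans hK
    exact_mod_cast h5
  have hp0 : ∀ j, 0 ≤ pT T j := fun j => by
    unfold pT
    positivity
  have hp1 : ∀ j, pT T j ≤ 1 := fun j => by
    unfold pT
    rw [div_le_one hnpos]
    have h5 : (univ.filter (fun v => j ∈ T v)).card ≤ n := by
      have h6 := card_filter_le (univ : Finset (Fin n)) (fun v => j ∈ T v)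
      simpa using h6
    exact_mod_cast h5
  have hVg' : (1 - η) * n ≤ Vg.card := by
    have h5 : (1 - η) * n ≤ (1 - u) * n := mul_le_mul_of_nonneg_right (by linarith) hnpos.le
    linarith
  have hAK2 : (A.card : ℝ) ≤ 6 * u * n := by
    have h5 : (A.card : ℝ) ≤ K := by exact_mod_cast hAK
    exact h5.trans hKn
  have hsys := Pool.Agent.Work.MP_1ce445_upg.UPU_sys n k A T W Vg u c hn0 hu0 (by linarith) hTA hVg hsy
    hme hlo hup hAK2 hcn M hM hcl hcu
  have hprA : (1 - 1 / (M : ℝ)) ^ M - η ≤ ∏ x ∈ A, (1 - pT T x) := by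
    have hin : ∏ j ∈ A, (gammaT (G j) : ℝ) ≤ (∏ j ∈ A, ((1 - pT T j) + t)) * (n : ℝ) ^ A.card := by
      calc ∏ j ∈ A, (gammaT (G j) : ℝ) ≤ ∏ j ∈ A, (((1 - pT T j) + t) * n) := by
            apply prod_le_prod
            · intro j _
              exact Nat.cast_nonneg _
            · intro j hj
              exact hγ j hj
        _ = _ := by
            rw [prod_mul_distrib, prod_const]
    have hout : ∏ j ∈ Aᶜ, (gammaT (G j) : ℝ) ≤ ((n : ℝ) - 1) ^ (Aᶜ).card := by
      rw [← prod_const]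
      apply prod_le_prod
      · intro j _
        exact Nat.cast_nonneg _
      · intro j _
        rw [← hNR]
        exact_mod_cast hγN j
    have hcard : A.card + (Aᶜ).card = k := by
      have h5 := card_add_card_compl A
      rw [Fintype.card_fin] at h5
      exact h5
    have hpr0 : 0 ≤ ∏ j ∈ A, ((1 - pT T j) + t) := prod_nonneg fun j _ => by
      have := hp1 j
      have : 0 ≤ 1 - pT T j := by linarith
      positivity
    have hAη : 8 * (A.card : ℝ) ≤ η * n := by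
      have h5 : (A.card : ℝ) ≤ K := by exact_mod_cast hAK
      linarith
    have hpow := OST_pow (n := (n : ℝ)) (a := A.card) (by linarith) hη0 hη1 hAη
    have hfin : (∏ j, (gammaT (G j) : ℝ)) ≤
        ((∏ j ∈ A, ((1 - pT T j) + t)) * (1 + η / 4)) * ((n : ℝ) - 1) ^ k := by
      rw [← prod_mul_prod_compl A]
      calc (∏ j ∈ A, (gammaT (G j) : ℝ)) * ∏ j ∈ Aᶜ, (gammaT (G j) : ℝ)
          ≤ ((∏ j ∈ A, ((1 - pT T j) + t)) * (n : ℝ) ^ A.card) * ((n : ℝ) - 1) ^ (Aᶜ).card :=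
            mul_le_mul hin hout (prod_nonneg fun j _ => Nat.cast_nonneg _) (by positivity)
        _ ≤ ((∏ j ∈ A, ((1 - pT T j) + t)) * ((1 + η / 4) * ((n : ℝ) - 1) ^ A.card)) *
              ((n : ℝ) - 1) ^ (Aᶜ).card :=
            mul_le_mul_of_nonneg_right (mul_le_mul_of_nonneg_left hpow hpr0) (by positivity)
        _ = ((∏ j ∈ A, ((1 - pT T j) + t)) * (1 + η / 4)) *
              (((n : ℝ) - 1) ^ A.card * ((n : ℝ) - 1) ^ (Aᶜ).card) := by ring
        _ = _ := by
            rw [← pow_add, hcard]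
    have h6 := le_of_mul_le_mul_right (hprod.trans hfin) hnk
    have h7 := STA_prod A (fun j => 1 - pT T j) ht0.le (fun j => by
      have := hp1 j
      linarith) (fun j => by
      have := hp0 j
      linarith)
    have h8 : (1 + t) ^ A.card ≤ (1 + t) ^ K := pow_le_pow_right₀ (by linarith) hAK
    have h9 : ∏ j ∈ A, ((1 - pT T j) + t) ≤ (1 + t) ^ A.card := by
      rw [← prod_const]
      apply prod_le_prod
      · intro j _
        have := hp1 j
        linarith
      · intro j _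
        have := hp0 j
        linarith
    have h10 : (∏ j ∈ A, ((1 - pT T j) + t)) * (η / 4) ≤ 2 * (η / 4) :=
      mul_le_mul_of_nonneg_right (by linarith) (by linarith)
    have h11 : (∏ j ∈ A, ((1 - pT T j) + t)) * (1 + η / 4) =
        (∏ j ∈ A, ((1 - pT T j) + t)) + (∏ j ∈ A, ((1 - pT T j) + t)) * (η / 4) := by ring
    rw [h11] at h6
    linarith
  obtain ⟨e, he, heA, hep, he2⟩ := hSET n k T A W Vg c (10 * u) hn0 hTA hVg' hsys hsq
    (hrng c hcl hce2) hprA
  have hpn : ∀ j, ((univ.filter (fun v => j ∈ T v)).card : ℝ) = pT T j * n := by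
    intro j
    unfold pT
    field_simp
  refine ⟨e, he, ?_, ?_, ?_⟩
  · intro i
    refine (hγ (e i) (heA i)).trans ?_
    apply mul_le_mul_of_nonneg_right _ hnpos.le
    have h5 := (abs_le.1 (hep i)).1
    have h6 : ((univ.filter (fun v => e i ∈ T v)).card : ℝ) / n = pT T (e i) := rfl
    rw [h6]
    linarith
  · intro i
    have h5 : hi (G (e i)) θ ⊆ univ.filter (fun v => e i ∈ T v) := by
      intro v hv
      unfold hi at hv
      rw [mem_filter] at hv
      rw [mem_filter]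
      refine ⟨mem_univ _, ?_⟩
      rw [hT, STA_mem]
      refine ⟨heA i, ?_⟩
      have : d * n ≤ θ * n := mul_le_mul_of_nonneg_right hd hnpos.le
      linarith [hv.2]
    have h6 : ((hi (G (e i)) θ).card : ℝ) ≤ ((univ.filter (fun v => e i ∈ T v)).card : ℝ) := by
      exact_mod_cast card_le_card h5
    rw [hpn] at h6
    refine h6.trans ?_
    apply mul_le_mul_of_nonneg_right _ hnpos.le
    have h7 := (abs_le.1 (hep i)).2
    linarith
  · have h5 : ov G e θ ⊆ univ.filter (fun v => 2 ≤ (T v).card) := by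
      intro v hv
      unfold ov at hv
      rw [mem_filter] at hv
      obtain ⟨_, i, j, hij, hvi, hvj⟩ := hv
      rw [mem_filter]
      refine ⟨mem_univ _, ?_⟩
      have hmem : ∀ i, v ∈ hi (G (e i)) θ → e i ∈ T v := by
        intro i hv
        unfold hi at hv
        rw [mem_filter] at hv
        rw [hT, STA_mem]
        refine ⟨heA i, ?_⟩
        have : d * n ≤ θ * n := mul_le_mul_of_nonneg_right hd hnpos.le
        linarith [hv.2]
      have h6 : ({e i, e j} : Finset (Fin k)) ⊆ T v := by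
        intro x hx
        simp only [mem_insert, mem_singleton] at hx
        rcases hx with rfl | rfl
        · exact hmem i hvi
        · exact hmem j hvj
      have h7 := card_le_card h6
      rw [card_insert_of_notMem (by
        rw [mem_singleton]
        exact fun h => hij (he h)), card_singleton] at h7
      exact h7
    have h6 : ((ov G e θ).card : ℝ) ≤ ((univ.filter (fun v => 2 ≤ (T v).card)).card : ℝ) := by
      exact_mod_cast card_le_card h5
    have h7 : κ' * n ≤ κ * n := mul_le_mul_of_nonneg_right (by linarith) hnpos.le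
    linarith

end Pool.Agent.Work.MP_1ce445_plo
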