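import Pool.Agent.Work.MP_1ce445_plo.Interface
import Pool.Agent.Work.MP_1ce445_stm.SUR

/-!
Block OSU of the plateaus for odd n (helper88): copy of `MP_1ce445_stm/SUR.lean`.
-/

namespace Pool.Agent.Work.MP_1ce445_plo

open Finset Pool.Agent.Work.MP_1ce445_co_56 Pool.Agent.Work.MP_1ce445_lin
  Pool.Agent.Work.MP_1ce445_fx Pool.Agent.Work.MP_1ce445_stm Pool.Agent.Work.MP_1ce445_plt
  Pool.Agent.Work.MP_1ce445_pln

theorem OSU_ne {n k M : ℕ} {G : Fin k → SimpleGraph (Fin n)} {e : Fin M → Fin k} {θ s : ℝ}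
    (hs : SO G e θ s) (i : Fin M) : (hi (G (e i)) θ).Nonempty := by
  rw [← Finset.card_pos]
  have h1 := hs.big i
  have h2 : (0 : ℝ) < n := by exact_mod_cast hs.pos
  have h4 : (0 : ℝ) < M := by
    have := hs.two
    exact_mod_cast (by omega : 0 < M)
  have h3 : (0 : ℝ) < ((hi (G (e i)) θ).card : ℝ) :=
    lt_of_lt_of_le (by positivity) h1
  exact_mod_cast h3

theorem OSU_spr (hS : MP_1ce445_stm.Stmt_SPR) {n k M : ℕ} {G : Fin k → SimpleGraph (Fin n)}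
    {e : Fin M → Fin k} {θ s : ℝ} (r : ℕ) (hs : SO G e θ s) (i : Fin M) (D : Finset (Fin n)) :
    (gammaT (G (e i)) : ℝ) ≤ r + D.card + ∑ v ∈ und (G (e i)) D, (1 - xx G e θ i v) ^ r := by
  have h := hS n r (G (e i)) (hi (G (e i)) θ) D (fun v => hs.fac.minDeg (e i) v) (OSU_ne hs i)
  simpa only [SUR_nf] using h

/-- Block OSU. -/
theorem stmt_OSU : MP_1ce445_stm.Stmt_SPR → Stmt_OSU := by
  classical
  intro hS n k M r G e θ s hs
  have h2 : ∀ i, (gammaT (G (e i)) : ℝ) ≤ r + ∑ v, (1 - xx G e θ i v) ^ r := by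
    intro i
    have h := OSU_spr hS r hs i ∅
    rw [SUR_emp] at h
    simpa using h
  have h7 : ∑ i : Fin M, ((r : ℝ) + ∑ v, (1 - xx G e θ i v) ^ r) =
      M * r + ∑ v, ∑ i, (1 - xx G e θ i v) ^ r := by
    rw [Finset.sum_add_distrib, Finset.sum_comm]
    simp
  refine ⟨?_, ?_, ?_⟩
  · intro i v
    have h1 : MP_1ce445_fx.dg (G (e i)) (hi (G (e i)) θ) v ≤ (hi (G (e i)) θ).card :=
      Finset.card_le_card (Finset.filter_subset _ _)
    have h3 : (MP_1ce445_fx.dg (G (e i)) (hi (G (e i)) θ) v : ℝ) ≤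
        ((hi (G (e i)) θ).card : ℝ) := by
      exact_mod_cast h1
    exact ⟨div_nonneg (Nat.cast_nonneg _) (Nat.cast_nonneg _),
      div_le_one_of_le₀ h3 (Nat.cast_nonneg _)⟩
  · rw [← h7]
    exact Finset.sum_le_sum fun i _ => h2 i
  · intro i0 z
    have h1 := OSU_spr hS r hs i0 {z}
    rw [SUR_sing, Finset.card_singleton] at h1
    have h4 : gs G e = (gammaT (G (e i0)) : ℝ) + ∑ i ∈ univ.erase i0, (gammaT (G (e i)) : ℝ) :=
      (Finset.add_sum_erase univ (fun i => (gammaT (G (e i)) : ℝ))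
        (Finset.mem_univ i0)).symm
    have h5 : ∑ i, ((r : ℝ) + ∑ v, (1 - xx G e θ i v) ^ r) =
        ((r : ℝ) + ∑ v, (1 - xx G e θ i0 v) ^ r) +
          ∑ i ∈ univ.erase i0, ((r : ℝ) + ∑ v, (1 - xx G e θ i v) ^ r) :=
      (Finset.add_sum_erase univ (fun i => ((r : ℝ) + ∑ v, (1 - xx G e θ i v) ^ r))
        (Finset.mem_univ i0)).symm
    have h6 : ∑ i ∈ univ.erase i0, (gammaT (G (e i)) : ℝ) ≤
        ∑ i ∈ univ.erase i0, ((r : ℝ) + ∑ v, (1 - xx G e θ i v) ^ r) :=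
      Finset.sum_le_sum fun i _ => h2 i
    push_cast at h1
    linarith

end Pool.Agent.Work.MP_1ce445_plo
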