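import Pool.Agent.Work.MP_1ce445_plo.Interface
import Pool.Agent.Work.MP_1ce445_stm.SZE

/-! OSZ: sizes of the sets `hi (G (e i)) θ` (copy of `MP_1ce445_stm/SZE.lean`). -/

namespace Pool.Agent.Work.MP_1ce445_plo

open Finset Pool.Agent.Work.MP_1ce445_co_56 Pool.Agent.Work.MP_1ce445_lin
  Pool.Agent.Work.MP_1ce445_fx Pool.Agent.Work.MP_1ce445_stm Pool.Agent.Work.MP_1ce445_plt
  Pool.Agent.Work.MP_1ce445_pln

theorem OSZ_low {n k M : ℕ} (G : Fin k → SimpleGraph (Fin n)) (e : Fin M → Fin k) (θ s : ℝ)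
    (hD : MP_1ce445_stm.Stmt_DEG) (h : SO G e θ s) (j : Fin M) :
    (n : ℝ) / M - tt n k M - 2 * M / n * ∑ v, ((dd G e θ v : ℝ) + EE G e v)
      - 2 * M * ∑ v ∈ hi (G (e j)) θ \ ov G e θ, ∑ i ∈ univ.erase j, xx G e θ i v
      ≤ (hi (G (e j)) θ).card := by
  classical
  have hM : (2 : ℝ) ≤ M := by exact_mod_cast h.two
  have hM0 : (0 : ℝ) < M := by linarith
  have hn : (0 : ℝ) < n := by exact_mod_cast h.pos
  set W := hi (G (e j)) θ \ ov G e θ with hW
  have hWc : (n : ℝ) / (2 * M) ≤ W.card := by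
    have h1 : (hi (G (e j)) θ).card ≤ W.card + (ov G e θ).card := by
      have := card_le_card_sdiff_add_card (s := hi (G (e j)) θ) (t := ov G e θ)
      exact this
    have h1' : ((hi (G (e j)) θ).card : ℝ) ≤ W.card + (ov G e θ).card := by exact_mod_cast h1
    have h2 := h.big j
    have h3 := h.ovl
    have h4 : s * n ≤ n / (4 * M) := by
      rw [le_div_iff₀ (by positivity)]
      nlinarith [h.s1]
    have h5 : 3 * (n : ℝ) / (4 * M) - n / (4 * M) = n / (2 * M) := by
      field_simp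
      ring
    linarith
  have hWpos : (0 : ℝ) < W.card := lt_of_lt_of_le (by positivity) hWc
  have hpt : ∀ v ∈ W, (n : ℝ) / M - tt n k M - ((dd G e θ v : ℝ) + EE G e v)
      - n * ∑ i ∈ univ.erase j, xx G e θ i v ≤ (hi (G (e j)) θ).card := by
    intro v _
    have h1 := hD n k M G e θ h.fac h.inj v
    have h1' : (∑ i, (dg (G (e i)) (hi (G (e i)) θ) v : ℝ)) + dd G e θ v + EE G e v + k + 1
        = n + M := by exact_mod_cast h1
    rw [← add_sum_erase univ _ (mem_univ j)] at h1'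
    have h2 : (dg (G (e j)) (hi (G (e j)) θ) v : ℝ) ≤ (hi (G (e j)) θ).card := by
      have : dg (G (e j)) (hi (G (e j)) θ) v ≤ (hi (G (e j)) θ).card := by
        unfold Pool.Agent.Work.MP_1ce445_fx.dg
        exact card_filter_le _ _
      exact_mod_cast this
    have h3 : ∑ i ∈ univ.erase j, (dg (G (e i)) (hi (G (e i)) θ) v : ℝ)
        ≤ n * ∑ i ∈ univ.erase j, xx G e θ i v := by
      rw [mul_sum]
      refine sum_le_sum (fun i _ => ?_)
      have hc : (0 : ℝ) < (hi (G (e i)) θ).card := lt_of_lt_of_le (by positivity) (h.big i)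
      have hcn : ((hi (G (e i)) θ).card : ℝ) ≤ n := by
        have := card_le_univ (hi (G (e i)) θ)
        rw [Fintype.card_fin] at this
        exact_mod_cast this
      have h6 : (0 : ℝ) ≤ xx G e θ i v := by
        unfold xx
        positivity
      have h7 : (dg (G (e i)) (hi (G (e i)) θ) v : ℝ)
          = (hi (G (e i)) θ).card * xx G e θ i v := by
        unfold xx
        field_simp
      rw [h7]
      exact mul_le_mul_of_nonneg_right hcn h6
    unfold tt
    linarith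
  have hsum := sum_le_sum hpt
  rw [sum_sub_distrib, sum_sub_distrib, sum_const, sum_const, nsmul_eq_mul, nsmul_eq_mul,
    ← mul_sum] at hsum
  set X := ∑ v ∈ W, ∑ i ∈ univ.erase j, xx G e θ i v with hX
  have hX0 : 0 ≤ X := by
    refine sum_nonneg (fun v _ => sum_nonneg (fun i _ => ?_))
    unfold xx
    positivity
  have hDW : ∑ v ∈ W, ((dd G e θ v : ℝ) + EE G e v) ≤ ∑ v, ((dd G e θ v : ℝ) + EE G e v) :=
    sum_le_sum_of_subset_of_nonneg (subset_univ _) (fun v _ _ => by positivity)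
  set DD := ∑ v, ((dd G e θ v : ℝ) + EE G e v) with hDD
  have hDD0 : 0 ≤ DD := sum_nonneg (fun v _ => by positivity)
  have h8 : (W.card : ℝ) * ((n : ℝ) / M - tt n k M - (hi (G (e j)) θ).card) ≤ DD + n * X := by
    nlinarith
  have h9 : (n : ℝ) / (2 * M) * (2 * M / n * DD + 2 * M * X) = DD + n * X := by
    field_simp
  have h10 : 0 ≤ 2 * M / n * DD + 2 * M * X := by positivity
  have h11 : (n : ℝ) / (2 * M) * (2 * M / n * DD + 2 * M * X)
      ≤ W.card * (2 * M / n * DD + 2 * M * X) := mul_le_mul_of_nonneg_right hWc h10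
  have h12 : (W.card : ℝ) * ((n : ℝ) / M - tt n k M - (hi (G (e j)) θ).card)
      ≤ W.card * (2 * M / n * DD + 2 * M * X) := by linarith
  have h13 := le_of_mul_le_mul_left h12 hWpos
  linarith

theorem stmt_OSZ (h1 : MP_1ce445_stm.Stmt_DEG) (_h2 : Stmt_OSU) : Stmt_OSZ := by
  classical
  intro n k M G e θ s h
  have hM : (2 : ℝ) ≤ M := by exact_mod_cast h.two
  have hM0 : (0 : ℝ) < M := by linarith
  have hn : (0 : ℝ) < n := by exact_mod_cast h.pos
  have ht := h.tnn
  set DD := ∑ v, ((dd G e θ v : ℝ) + EE G e v) with hDD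
  have hDD0 : 0 ≤ DD := sum_nonneg (fun v _ => by positivity)
  have hXj : ∀ j, 0 ≤ ∑ v ∈ hi (G (e j)) θ \ ov G e θ, ∑ i ∈ univ.erase j, xx G e θ i v := by
    intro j
    refine sum_nonneg (fun v _ => sum_nonneg (fun i _ => ?_))
    unfold xx
    positivity
  have hXb0 : 0 ≤ Xb G e θ := sum_nonneg (fun j _ => hXj j)
  have hbb0 : 0 ≤ bb G e θ := by
    unfold bb
    rw [← hDD]
    positivity
  refine ⟨hbb0, fun i => ?_⟩
  have hs := MP_1ce445_stm.SZE_sum G e θ h.two
  rw [← add_sum_erase univ _ (mem_univ i)] at hs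
  have hl : ∑ j ∈ univ.erase i, ((n : ℝ) / M - tt n k M - 2 * M / n * DD
      - 2 * M * ∑ v ∈ hi (G (e j)) θ \ ov G e θ, ∑ i ∈ univ.erase j, xx G e θ i v)
      ≤ ∑ j ∈ univ.erase i, ((hi (G (e j)) θ).card : ℝ) :=
    sum_le_sum (fun j _ => OSZ_low G e θ s h1 h j)
  rw [sum_sub_distrib, sum_const, nsmul_eq_mul, ← mul_sum, card_erase_of_mem (mem_univ i),
    card_univ, Fintype.card_fin] at hl
  have hx : ∑ j ∈ univ.erase i, ∑ v ∈ hi (G (e j)) θ \ ov G e θ, ∑ i ∈ univ.erase j, xx G e θ i v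
      ≤ Xb G e θ := by
    unfold Xb
    exact sum_le_sum_of_subset_of_nonneg (subset_univ _) (fun j _ _ => hXj j)
  have hc : ((M - 1 : ℕ) : ℝ) = (M : ℝ) - 1 := by
    rw [Nat.cast_sub (by linarith [h.two])]
    simp
  rw [hc] at hl
  have ho : (0 : ℝ) ≤ (ov G e θ).card := by positivity
  have hDt : 0 ≤ 2 * (M : ℝ) / n * DD := by positivity
  have hbb : bb G e θ = M * (ov G e θ).card + M * tt n k M + M * (2 * (M : ℝ) / n * DD)
      + 2 * M * Xb G e θ := by
    unfold bb
    rw [← hDD]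
    ring
  have hnM : (M : ℝ) * (n / M) = n := by field_simp
  have hxx : 2 * (M : ℝ) * ∑ j ∈ univ.erase i, ∑ v ∈ hi (G (e j)) θ \ ov G e θ,
      ∑ i ∈ univ.erase j, xx G e θ i v ≤ 2 * M * Xb G e θ :=
    mul_le_mul_of_nonneg_left hx (by positivity)
  rw [hbb]
  nlinarith

end Pool.Agent.Work.MP_1ce445_plo
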