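import Pool.Agent.Work.MP_1ce445_plo.Interface

/-! # Block OUN: the bound for the sum of the special total domination numbers, odd `n` -/

namespace Pool.Agent.Work.MP_1ce445_plo

open Finset Pool.Agent.Work.MP_1ce445_co_56 Pool.Agent.Work.MP_1ce445_lin
  Pool.Agent.Work.MP_1ce445_fx Pool.Agent.Work.MP_1ce445_stm Pool.Agent.Work.MP_1ce445_plt
  Pool.Agent.Work.MP_1ce445_pln

/-- Block OUN. -/
theorem stmt_OUN : Stmt_OSU → Stmt_OGA → Stmt_OER → Stmt_OUN := by
  classical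
  intro hSUR hGAI hERU M hM
  obtain ⟨K1, K0, hK1, hK0, hE⟩ := hERU M hM
  have hm : (2 : ℝ) ≤ (M : ℝ) := by exact_mod_cast hM
  set K : ℝ := ((M : ℝ) + 3) * K1 with hKdef
  have hK1K : K1 ≤ K := by
    rw [hKdef]
    nlinarith
  have hK : 1 ≤ K := le_trans hK1 hK1K
  have hKp : (0 : ℝ) < K := by linarith
  have hK1p : (0 : ℝ) < K1 := by linarith
  refine ⟨K, 1 / (8 * K), hK, by positivity, ?_⟩
  intro θ hθ hθ0
  refine ⟨θ / (100 * K), by positivity, ?_⟩
  intro s hs hs0 n k r Δ G e hSt hgam hKn hkn hr hΔn hall hΔθ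
  have a1 : θ * (8 * K) ≤ 1 := by
    rw [le_div_iff₀ (by positivity)] at hθ0
    exact hθ0
  have a2 : K * θ ≤ 1 / 8 := by linarith
  have a3 : θ ≤ 1 / 8 := by nlinarith
  have a4 : s * (100 * K) ≤ θ := by
    rw [le_div_iff₀ (by positivity)] at hs0
    exact hs0
  have a5 : K * s ≤ θ / 100 := by linarith
  have b1 : K1 * s ≤ K * s := mul_le_mul_of_nonneg_right hK1K hs.le
  have b2 : K1 * θ ≤ K * θ := mul_le_mul_of_nonneg_right hK1K hθ.le
  have hn : (0 : ℝ) < n := by exact_mod_cast hSt.pos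
  obtain ⟨hx01, hS1, _⟩ := hSUR n k M r G e θ s hSt
  set Z : Finset (Fin n) := univ.filter (fun v => (n : ℝ) / K0 < EE G e v) with hZ
  have g1 := hGAI n k M r Δ G e θ s Z hr hSt hall
  obtain ⟨g0, g2⟩ := hE n k r Δ G e θ s hSt hgam (by linarith) hkn (by linarith) (by linarith)
    hr hΔn hall
  rw [← hZ] at g0 g2
  have g3 : 0 ≤ Xb G e θ := by
    unfold Xb
    refine Finset.sum_nonneg fun j _ => Finset.sum_nonneg fun v _ =>
      Finset.sum_nonneg fun i _ => (hx01 i v).1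
  have g5 : ∑ v, ∑ i, (1 - (1 - xx G e θ i v) ^ r) =
      M * n - ∑ v, ∑ i, (1 - xx G e θ i v) ^ r := by
    simp only [Finset.sum_sub_distrib, Finset.sum_const, Finset.card_univ, Fintype.card_fin,
      nsmul_eq_mul, mul_one]
    ring
  rw [g5] at g1
  have htt : 0 ≤ tt n k M := hSt.tnn
  have p1 : (n : ℝ) * (K1 * (M * tt n k M / n)) ^ r ≤ n * (K * (M * tt n k M / n)) ^ r := by
    refine mul_le_mul_of_nonneg_left (pow_le_pow_left₀ (by positivity) ?_ r) hn.le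
    exact mul_le_mul_of_nonneg_right hK1K (by positivity)
  have p2 : (n : ℝ) * (K1 * (Δ / n)) ^ r ≤ n * (K * (Δ / n)) ^ r := by
    refine mul_le_mul_of_nonneg_left (pow_le_pow_left₀ (by positivity) ?_ r) hn.le
    exact mul_le_mul_of_nonneg_right hK1K (by positivity)
  set Q : ℝ := ∑ v, ∑ i, (1 - xx G e θ i v) ^ r with hQ
  set X : ℝ := Xb G e θ with hX
  set O : ℝ := ((ov G e θ).card : ℝ) with hO
  set L : ℝ := (LO G e : ℝ) with hL
  set R : ℝ := 32 ^ r * ∑ v ∈ univ \ Z, ev G e θ v ^ r with hR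
  have hO0 : 0 ≤ O := Nat.cast_nonneg _
  have hL0 : (0 : ℝ) ≤ L := Nat.cast_nonneg _
  have hD : (Δ : ℝ) / n ≤ θ / 2 := by
    rw [div_le_iff₀ hn]
    exact hΔθ
  have g7 : θ / 8 * O ≤ (θ - Δ / n) / 4 * O :=
    mul_le_mul_of_nonneg_right (by linarith) hO0
  have g9 : K1 * s * O ≤ θ / 8 * O := mul_le_mul_of_nonneg_right (by linarith) hO0
  have g12 : K1 * θ * X ≤ 1 / 8 * X := mul_le_mul_of_nonneg_right (by linarith) g3
  have g13 : K1 * (1 + s * O + s * L + θ * X) = K1 + K1 * s * O + K1 * s * L + K1 * θ * X := by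
    ring
  rw [g13] at g2
  have g14 : ((M : ℝ) + 2) * Z.card ≤ ((M : ℝ) + 2) * (K1 * (1 + s * L)) :=
    mul_le_mul_of_nonneg_left g0 (by linarith)
  have g15 : K * s * L ≤ 1 / 100 * L := mul_le_mul_of_nonneg_right (by linarith) hL0
  have g16 : ((M : ℝ) + 2) * (K1 * (1 + s * L)) + K1 + K1 * s * L = K + K * s * L := by
    rw [hKdef]
    ring
  linarith

end Pool.Agent.Work.MP_1ce445_plo
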