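import Pool.Agent.Work.MP_1ce445_plo.Interface
import Pool.Agent.Work.MP_1ce445_plt.UPU
import Pool.Agent.Work.MP_1ce445_pln.UP3

/-!
Block OUP (MP_1ce445_co, plateaus `M ≥ 2`, odd `n`, upper half; helper50). Models `MP_1ce445_plt/UPU.lean`,
`MP_1ce445_pln/UP3.lean`.
-/

namespace Pool.Agent.Work.MP_1ce445_plo

open Finset Pool.Agent.Work.MP_1ce445_co_56 Pool.Agent.Work.MP_1ce445_lin
  Pool.Agent.Work.MP_1ce445_fx Pool.Agent.Work.MP_1ce445_stm Pool.Agent.Work.MP_1ce445_plt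
  Pool.Agent.Work.MP_1ce445_pln

/-- the bound for one factorization -/
lemma OUP_core (hPRR : Pool.Agent.Work.MP_1ce445_stm.Stmt_PRR) (M r n k : ℕ) (D : ℝ) (hM : 2 ≤ M)
    (hn : 2 ≤ n) (hD : 0 ≤ D)
    (G : Fin k → SimpleGraph (Fin n)) (e : Fin M → Fin k)
    (he : Function.Injective e) (hgam : ∀ l, gammaT (G l) + 1 ≤ n)
    (hA : gs G e ≤ ((M : ℝ) - 1) * n + M * r + D + LO G e / 100) :
    (∏ l, (gammaT (G l) : ℝ)) ≤
      ((n : ℝ) - 1) ^ (k - M) * (((n : ℝ) - 1) - ((n : ℝ) - 1) / M + (r + 1 + D)) ^ M := by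
  have hM2 : (2 : ℝ) ≤ M := by exact_mod_cast hM
  have hM0 : (0 : ℝ) < M := by linarith
  obtain ⟨N, hN⟩ : ∃ N : ℕ, n = N + 1 := ⟨n - 1, by omega⟩
  have hNr : (n : ℝ) - 1 = N := by rw [hN]; push_cast; ring
  have hNpos : 0 < N := by omega
  have hN0 : (0 : ℝ) < N := by exact_mod_cast hNpos
  have hgam' : ∀ l, gammaT (G l) ≤ N := by
    intro l
    have := hgam l
    omega
  obtain ⟨A, hAd⟩ : ∃ A : ℝ, A = (N : ℝ) - N / M + (r + 1 + D) := ⟨_, rfl⟩
  have hMA : (M : ℝ) * A = ((M : ℝ) - 1) * N + M * r + M + M * D := by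
    rw [hAd]
    field_simp
    ring
  have hr0 : (0 : ℝ) ≤ r := Nat.cast_nonneg r
  have hnM : (N : ℝ) / M ≤ N / 2 := div_le_div_of_nonneg_left hN0.le (by norm_num) hM2
  have hA2 : (N : ℝ) / 2 ≤ A := by
    rw [hAd]
    linarith
  have hA0 : 0 < A := by linarith
  have hLs : ∑ l ∈ ot e, ((N : ℝ) - gammaT (G l)) = LO G e := by
    unfold LO
    rw [Nat.cast_sum]
    refine sum_congr rfl fun l _ => ?_
    have h1 : n - 1 - gammaT (G l) = N - gammaT (G l) := by omega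
    rw [h1]
    exact (Nat.cast_sub (hgam' l)).symm
  have hL0 : (0 : ℝ) ≤ LO G e := Nat.cast_nonneg _
  have h1 := hPRR k N M (fun l => gammaT (G l)) e A ((LO G e : ℝ) / 100) hNpos (by omega) he hA0
    (by positivity) hgam' (by
      have h7 : gs G e = ∑ i, (gammaT (G (e i)) : ℝ) := rfl
      have h8 : (n : ℝ) = N + 1 := by linarith
      have h9 : D ≤ M * D := by nlinarith
      rw [← h7, hMA]
      rw [h8] at hA
      linarith)
  rw [hLs] at h1
  have h2 : (LO G e : ℝ) / 100 / A - (LO G e : ℝ) / N ≤ 0 := by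
    have h5 : (LO G e : ℝ) / 100 / A ≤ (LO G e : ℝ) / 100 / (N / 2) :=
      div_le_div_of_nonneg_left (by positivity) (by linarith) hA2
    have h6 : (LO G e : ℝ) / 100 / ((N : ℝ) / 2) = (LO G e : ℝ) / N / 50 := by
      field_simp
      ring
    have h7 : 0 ≤ (LO G e : ℝ) / N := by positivity
    linarith
  have h3 : Real.exp ((LO G e : ℝ) / 100 / A - (LO G e : ℝ) / N) ≤ 1 := Real.exp_le_one_iff.2 h2
  rw [hNr, ← hAd]
  refine h1.trans ?_
  have h5 : (0 : ℝ) ≤ (N : ℝ) ^ (k - M) * A ^ M := by positivity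
  calc _ ≤ (N : ℝ) ^ (k - M) * A ^ M * 1 := mul_le_mul_of_nonneg_left h3 h5
    _ = _ := by ring

theorem stmt_OUP (hPRR : Pool.Agent.Work.MP_1ce445_stm.Stmt_PRR) (hLN : Stmt_OLN)
    (hSB : Stmt_OSB) (hUI : Stmt_OUI) (hAP : Stmt_OAP) : Stmt_OUP := by
  intro M hM ε hε hε1
  have hM2 : (2 : ℝ) ≤ M := by exact_mod_cast hM
  have hM0 : (0 : ℝ) < M := by linarith
  obtain ⟨θ₁, s₁, C₁, ε₁, hθ₁, hθ₁2, hs₁, hs₁2, hC₁, hε₁, hU⟩ := hUI M hM
  obtain ⟨δ, hd0, hd1, hd2, hd4, hd3⟩ : ∃ x : ℝ, 0 < x ∧ x ≤ ε₁ ∧ x ≤ ε ∧ x ≤ 1 / 4 ∧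
      x ≤ Real.exp (-(4 * Real.log C₁ / ε)) :=
    ⟨min (min ε₁ ε) (min (1 / 4) (Real.exp (-(4 * Real.log C₁ / ε)))),
      lt_min (lt_min hε₁ hε) (lt_min (by norm_num) (Real.exp_pos _)),
      (min_le_left _ _).trans (min_le_left _ _), (min_le_left _ _).trans (min_le_right _ _),
      (min_le_right _ _).trans (min_le_left _ _), (min_le_right _ _).trans (min_le_right _ _)⟩
  have hlogC : Real.log C₁ ≤ ε / 4 * (- Real.log δ) := by
    have h1 : Real.log δ ≤ -(4 * Real.log C₁ / ε) := by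
      rw [Real.log_le_iff_le_exp hd0]
      exact hd3
    have h2 : ε / 4 * (4 * Real.log C₁ / ε) ≤ ε / 4 * (- Real.log δ) :=
      mul_le_mul_of_nonneg_left (by linarith) (by positivity)
    have h3 : ε / 4 * (4 * Real.log C₁ / ε) = Real.log C₁ := by field_simp
    linarith
  obtain ⟨θ₂, s₂, C₂, hθ₂, hθ₂2, hs₂, hs₂2, hC₂, nA, hA⟩ := hAP M hM (δ ^ 2 / 20) (by positivity)
    (by nlinarith)
  obtain ⟨nS₁, hS₁⟩ := hSB M hM θ₁ s₁ hθ₁ hθ₁2 hs₁ hs₁2
  obtain ⟨nS₂, hS₂⟩ := hSB M hM θ₂ s₂ hθ₂ hθ₂2 hs₂ hs₂2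
  refine ⟨4 + C₁ + C₂, nA + nS₁ + nS₂ + 2 * M + ⌈Real.exp (6 / ε)⌉₊ + ⌈C₁⌉₊, by positivity, ?_⟩
  intro n k hn hod hτ hk
  have hnA : nA ≤ n := by omega
  have hnS₁ : nS₁ ≤ n := by omega
  have hnS₂ : nS₂ ≤ n := by omega
  have hnM : 2 * M ≤ n := by omega
  have hnE : ⌈Real.exp (6 / ε)⌉₊ ≤ n := by omega
  have hnC : ⌈C₁⌉₊ ≤ n := by omega
  have hn2 : 2 ≤ n := by omega
  have hnpos : 0 < n := by omega
  have hn0 : (0 : ℝ) < n := by exact_mod_cast hnpos
  have hn1 : (1 : ℝ) < n := by exact_mod_cast (by omega : 1 < n)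
  have hN0 : (0 : ℝ) < (n : ℝ) - 1 := by linarith
  have hC₁n : C₁ ≤ n := (Nat.le_ceil _).trans (by exact_mod_cast hnC)
  have hlogn : 0 < Real.log n := Real.log_pos hn1
  have hlogE : 6 ≤ ε * Real.log n := by
    have h1 : Real.exp (6 / ε) ≤ n := (Nat.le_ceil _).trans (by exact_mod_cast hnE)
    have h2 : 6 / ε ≤ Real.log n := by
      rw [Real.le_log_iff_exp_le hn0]
      exact h1
    rw [div_le_iff₀ hε] at h2
    linarith
  obtain ⟨t1, t2⟩ := UPP_tau (n := n) (k := k) (M := M) hnpos (by omega)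
  have hτ23 : tau n k M ≤ 2 / 3 := by
    rw [← t2]
    exact UP3_kap hM hk
  have hτ0 : 0 < tau n k M := lt_of_lt_of_le (by positivity) hτ
  have hl0 : 0 < - Real.log (tau n k M) := by
    have := Real.log_neg hτ0 (by linarith)
    linarith
  have hρ0 : 0 ≤ Real.log n / (- Real.log (tau n k M)) := by positivity
  have hNM : ((n : ℝ) - 1) / M ≤ (n : ℝ) - 1 := div_le_self hN0.le (by linarith)
  have hbase : 0 ≤ ((n : ℝ) - 1) - ((n : ℝ) - 1) / M := by linarith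
  have hkn : k ≤ n := by
    have h1 : cend M ≤ 1 := by
      unfold cend
      have h2 : 0 ≤ 1 / ((M : ℝ) + 1) := by positivity
      have h3 : 0 ≤ 1 / (4 * (M : ℝ) ^ 4) := by positivity
      linarith
    have h4 : (k : ℝ) / n ≤ 1 := hk.trans h1
    rw [div_le_one hn0] at h4
    exact_mod_cast h4
  have hkM : M ≤ k := by
    have h1 : ((M : ℝ) - 1) * n ≤ M * k := by
      have h2 : (M : ℝ) * ((k : ℝ) / n) = M * k / n := by ring
      have h3 : ((M : ℝ) - 1) ≤ M * k / n := by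
        rw [← h2]
        linarith
      rw [le_div_iff₀ hn0] at h3
      exact h3
    have h4 : (2 : ℝ) * M ≤ n := by exact_mod_cast hnM
    have h5 : (M : ℝ) * M ≤ M * k := by nlinarith
    have h6 : (M : ℝ) ≤ k := le_of_mul_le_mul_left h5 hM0
    exact_mod_cast h6
  have hnk : ((n : ℝ) - 1) ^ k = ((n : ℝ) - 1) ^ (k - M) * ((n : ℝ) - 1) ^ M := by
    rw [← pow_add, Nat.sub_add_cancel hkM]
  have htt : 0 ≤ tt n k M := by
    have h1 : 0 ≤ (M : ℝ) * tt n k M / n := by rw [t1]; exact hτ0.le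
    rw [le_div_iff₀ hn0, zero_mul] at h1
    exact nonneg_of_mul_nonneg_right h1 hM0
  obtain ⟨ρ, hρ⟩ : ∃ ρ : ℝ, ρ = Real.log n / (- Real.log (tau n k M)) := ⟨_, rfl⟩
  rw [← hρ] at hρ0 ⊢
  have hx0 : 0 ≤ (1 + ε) * ρ := by positivity
  rcases P_attained n k with h0 | ⟨G, hG, hP⟩
  · rw [h0, Nat.cast_zero]
    positivity
  have hPr : (P n k : ℝ) = ∏ l, (gammaT (G l) : ℝ) := by
    rw [hP]
    push_cast
    rfl
  rw [hPr]
  have hgam := hLN n k G hod hG
  rcases le_or_gt ((1 - 1 / (M : ℝ)) ^ M * ((n : ℝ) - 1) ^ k) (∏ l, (gammaT (G l) : ℝ)) with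
    hlow | hlow
  · rcases lt_or_ge (tau n k M) δ with hcase | hcase
    · -- `τ < δ`: OUI
      have hρ1 : 1 ≤ ρ := by
        rw [hρ, le_div_iff₀ hl0, one_mul]
        have h1 : Real.log (1 / (n : ℝ)) ≤ Real.log (tau n k M) :=
          Real.log_le_log (by positivity) hτ
        rw [one_div, Real.log_inv] at h1
        linarith
      obtain ⟨r, hr⟩ : ∃ r : ℕ, r = ⌊(1 + ε) * ρ⌋₊ + 1 := ⟨_, rfl⟩
      have hr1 : (1 + ε) * ρ ≤ r := by
        rw [hr]
        push_cast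
        exact (Nat.lt_floor_add_one _).le
      have hr2 : (r : ℝ) ≤ (1 + ε) * ρ + 1 := by
        rw [hr]
        push_cast
        have := Nat.floor_le hx0
        linarith
      have hr3 : 2 ≤ r := by
        have h1 : 1 ≤ ⌊(1 + ε) * ρ⌋₊ := by
          rw [Nat.one_le_floor_iff]
          nlinarith
        omega
      have hlogτ : - Real.log δ ≤ - Real.log (tau n k M) := by
        have := Real.log_le_log hτ0 hcase.le
        linarith
      have hnum := UPU_num ε C₁ (tau n k M) n r hnpos hε hε1 hC₁ hτ0 (by linarith)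
        (hlogC.trans (mul_le_mul_of_nonneg_left hlogτ (by positivity))) hlogE
        (by rw [← hρ]; exact hr1)
      obtain ⟨e, hSt, -⟩ := hS₁ n k hnS₁ hod htt hk G hG hlow
      have hgs := hU n k r G e hSt hgam hC₁n hkn hr3 hτ (hcase.le.trans hd1)
      have hcore := OUP_core hPRR M r n k (1 + C₁) hM hn2 (by linarith) G e hSt.inj hgam
        (by linarith)
      refine hcore.trans ?_
      apply mul_le_mul_of_nonneg_left _ (by positivity)
      apply pow_le_pow_left₀ (by positivity)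
      linarith
    · -- `δ ≤ τ`: OAP
      obtain ⟨l1, l2, l3⟩ := UPP_log hd0 hd4 hcase hτ23
      have hτδ : 0 < tau n k M + δ ^ 2 / 20 := by positivity
      obtain ⟨ℓ, hℓ⟩ : ∃ ℓ : ℝ, ℓ = - Real.log (tau n k M) := ⟨_, rfl⟩
      obtain ⟨ℓ', hℓ'⟩ : ∃ ℓ' : ℝ, ℓ' = - Real.log (tau n k M + δ ^ 2 / 20) := ⟨_, rfl⟩
      rw [← hℓ] at l1 l2 l3 hρ
      rw [← hℓ'] at l3
      have hℓ0 : 0 < ℓ := by linarith
      have hc0 : 0 < (1 - δ / 4) * ℓ := mul_pos (by linarith) hℓ0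
      have hℓ'0 : 0 < ℓ' := by linarith
      obtain ⟨r, hr⟩ : ∃ r : ℕ, r = ⌈Real.log n / ℓ'⌉₊ := ⟨_, rfl⟩
      have hr1 : 1 ≤ r := by
        rw [hr]
        exact Nat.ceil_pos.2 (by positivity)
      have hr2 : Real.log n / ℓ' ≤ r := by
        rw [hr]
        exact Nat.le_ceil _
      have hr3 : (r : ℝ) < Real.log n / ℓ' + 1 := by
        rw [hr]
        exact Nat.ceil_lt_add_one (by positivity)
      have hpow : (n : ℝ) * (tau n k M + δ ^ 2 / 20) ^ r ≤ 1 := by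
        apply UPP_pow hnpos hτδ
        rw [div_le_iff₀ hℓ'0, hℓ'] at hr2
        exact hr2
      have hr4 : (r : ℝ) ≤ (1 + ε) * ρ + 1 := by
        have a1 : Real.log n / ℓ' ≤ Real.log n / ((1 - δ / 4) * ℓ) :=
          div_le_div_of_nonneg_left hlogn.le hc0 l3
        have a2 : Real.log n / ((1 - δ / 4) * ℓ) ≤ (1 + δ) * (Real.log n / ℓ) := by
          rw [div_le_iff₀ hc0]
          have a3 : (1 + δ) * (Real.log n / ℓ) * ((1 - δ / 4) * ℓ) =
              ((1 + δ) * (1 - δ / 4)) * Real.log n := by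
            field_simp
          rw [a3]
          have a4 : 1 ≤ (1 + δ) * (1 - δ / 4) := by nlinarith
          nlinarith
        have a5 : (1 + δ) * (Real.log n / ℓ) ≤ (1 + ε) * ρ := by
          rw [hρ]
          exact mul_le_mul_of_nonneg_right (by linarith) (by positivity)
        linarith
      obtain ⟨e, hSt, hhi⟩ := hS₂ n k hnS₂ hod htt hk G hG hlow
      have hgs := hA n k r G e hnA hkn hr1 hSt hgam hhi (by rw [t1]; nlinarith)
      rw [t1] at hgs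
      have hcore := OUP_core hPRR M r n k (1 + C₂) hM hn2 (by linarith) G e hSt.inj hgam
        (by linarith)
      refine hcore.trans ?_
      apply mul_le_mul_of_nonneg_left _ (by positivity)
      apply pow_le_pow_left₀ (by positivity)
      linarith
  · refine hlow.le.trans ?_
    have e1 : (1 - 1 / (M : ℝ)) ^ M * ((n : ℝ) - 1) ^ k =
        ((n : ℝ) - 1) ^ (k - M) * (((n : ℝ) - 1) - ((n : ℝ) - 1) / M) ^ M := by
      have e2 : ((n : ℝ) - 1) - ((n : ℝ) - 1) / M = (1 - 1 / (M : ℝ)) * ((n : ℝ) - 1) := by ring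
      rw [e2, mul_pow, hnk]
      ring
    rw [e1]
    apply mul_le_mul_of_nonneg_left _ (by positivity)
    apply pow_le_pow_left₀ hbase
    linarith

end Pool.Agent.Work.MP_1ce445_plo
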