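import Pool.Agent.Work.MP_1ce445_ple.All
import Pool.Agent.Work.MP_1ce445_fx.CLN
import Pool.Agent.Work.MP_1ce445_plo.OSU
import Pool.Agent.Work.MP_1ce445_plo.OSZ
import Pool.Agent.Work.MP_1ce445_plo.OEV
import Pool.Agent.Work.MP_1ce445_plo.OXB
import Pool.Agent.Work.MP_1ce445_plo.OGA
import Pool.Agent.Work.MP_1ce445_plo.OGO
import Pool.Agent.Work.MP_1ce445_plo.OLN
import Pool.Agent.Work.MP_1ce445_plo.OEM
import Pool.Agent.Work.MP_1ce445_plo.OER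
import Pool.Agent.Work.MP_1ce445_plo.OES
import Pool.Agent.Work.MP_1ce445_plo.OUN
import Pool.Agent.Work.MP_1ce445_plo.OAV
import Pool.Agent.Work.MP_1ce445_plo.OUI
import Pool.Agent.Work.MP_1ce445_plo.OAP
import Pool.Agent.Work.MP_1ce445_plo.OST
import Pool.Agent.Work.MP_1ce445_plo.OSB
import Pool.Agent.Work.MP_1ce445_plo.OUP
import Pool.Agent.Work.MP_1ce445_plo.OLO
import Pool.Agent.Work.MP_1ce445_plo.OPE

/-!
Assembly: the plateaus `M ≥ 2` for all `n`.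
-/

namespace Pool.Agent.Work.MP_1ce445_plo

open Finset Pool.Agent.Work.MP_1ce445_co_56 Pool.Agent.Work.MP_1ce445_lin
  Pool.Agent.Work.MP_1ce445_fx Pool.Agent.Work.MP_1ce445_stm Pool.Agent.Work.MP_1ce445_plt
  Pool.Agent.Work.MP_1ce445_pln Pool.Agent.Work.MP_1ce445_ple

theorem h_OSU : Stmt_OSU := stmt_OSU stmt_SPR
theorem h_OSZ : Stmt_OSZ := stmt_OSZ h_DEG h_OSU
theorem h_OEV : Stmt_OEV := stmt_OEV h_DEG h_OSZ
theorem h_OXB : Stmt_OXB := stmt_OXB h_OSU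
theorem h_OGA : Stmt_OGA := stmt_OGA h_OSU stmt_HIN h_OEV
theorem h_OGO : Stmt_OGO := stmt_OGO h_DEG
theorem h_OEM : Stmt_OEM := stmt_OEM stmt_DG2
theorem h_OER : Stmt_OER := stmt_OER h_OEM h_DMO h_OXB
theorem h_OES : Stmt_OES := stmt_OES h_OEM h_DMO h_OXB
theorem h_OUN : Stmt_OUN := stmt_OUN h_OSU h_OGA h_OER
theorem h_OAV : Stmt_OAV := stmt_OAV h_OSU h_OGA h_OXB h_OES
theorem h_OUI : Stmt_OUI := stmt_OUI h_OUN h_OAV
theorem h_OAP : Stmt_OAP := stmt_OAP h_OSU h_OEM h_DMO stmt_HSU h_OGO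
theorem h_OST : Stmt_OST := stmt_OST stmt_RNG stmt_CR4 h_SE3
theorem h_OSB : Stmt_OSB := stmt_OSB h_DEG stmt_OLN h_OEM h_OST
theorem h_OUP : Stmt_OUP := stmt_OUP stmt_PRR stmt_OLN h_OSB h_OUI h_OAP
theorem h_OLO : Stmt_OLO := stmt_OLO h_SLV stmt_CLN

/-- The plateau theorem for all `n`. -/
theorem h_OPE : Stmt_OPE := stmt_OPE h_PEV h_OUP h_OLO

end Pool.Agent.Work.MP_1ce445_plo
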