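import Pool.Agent.Work.MP_1ce445_ple.Interface

/-!
THE PLATEAUS `M ≥ 2` FOR ODD `n` (helper28): the theorem of `MP_1ce445_ple` for odd `n`, `N = n - 1`, with the upper bound
`R ≤ (1+ε) ρ + C`. New in the upper half: every total domination number is at most `N = n - 1`, the loss of the other colours
is `LO = ∑ (n - 1 - γ)`, and the moments of `EE` get a term `k` (EMO is replaced by OEM). Most blocks are copies of typed files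
with the structure `SO` instead of `St` (the field `def'` is used only in `ERS`, `ERU`, `ADP`).

One file `Pool/Agent/Work/MP_1ce445_plo/<ID>.lean` per block, `import Pool.Agent.Work.MP_1ce445_plo.Interface`, the
`namespace` and `open` lines of this file, theorem `stmt_<ID> : Stmt_X → Stmt_Y → Stmt_<ID>` with exactly the statements of
the column `uses` as hypotheses, in this order (`stm.` = `Pool.Agent.Work.MP_1ce445_stm`, `plt.`, `pln.`, `ple.`, `fx.` likewise; the hypothesis is then written with its full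
name); auxiliary lemmas with the name of the block in front. No straight double quotes. Constants are never sharp; every
`K`, `C` may be as large as you like. Typed files may be imported.
-/

namespace Pool.Agent.Work.MP_1ce445_plo

open Finset Pool.Agent.Work.MP_1ce445_co_56 Pool.Agent.Work.MP_1ce445_lin
  Pool.Agent.Work.MP_1ce445_fx Pool.Agent.Work.MP_1ce445_stm Pool.Agent.Work.MP_1ce445_plt
  Pool.Agent.Work.MP_1ce445_pln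

/-- total loss of the other colours -/
noncomputable def LO {n k M : ℕ} (G : Fin k → SimpleGraph (Fin n)) (e : Fin M → Fin k) : ℕ :=
  ∑ l ∈ ot e, (n - 1 - gammaT (G l))

/-- The situation (`St` with `LO` instead of `Ls`). -/
structure SO {n k M : ℕ} (G : Fin k → SimpleGraph (Fin n)) (e : Fin M → Fin k) (θ s : ℝ) :
    Prop where
  two : 2 ≤ M
  pos : 0 < n
  fac : IsFactorization G
  inj : Function.Injective e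
  th : 0 < θ
  th' : 4 * (M : ℝ) ^ 2 * θ ≤ 1
  s0 : 0 < s
  s1 : 4 * (M : ℝ) * s ≤ 1
  tnn : 0 ≤ tt n k M
  big : ∀ i, 3 * (n : ℝ) / (4 * M) ≤ (hi (G (e i)) θ).card
  ovl : ((ov G e θ).card : ℝ) ≤ s * n
  def' : (LO G e : ℝ) ≤ s * n

/-! ### Copies -/

/-- OSU (copy of `MP_1ce445_stm/SUR.lean`; uses `stm.Stmt_SPR`). -/
def Stmt_OSU : Prop :=
  ∀ (n k M r : ℕ) (G : Fin k → SimpleGraph (Fin n)) (e : Fin M → Fin k) (θ s : ℝ), SO G e θ s →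
    (∀ i v, 0 ≤ xx G e θ i v ∧ xx G e θ i v ≤ 1) ∧
    (gs G e ≤ M * r + ∑ v, ∑ i, (1 - xx G e θ i v) ^ r) ∧
    ∀ (i0 : Fin M) (z : Fin n), gs G e ≤ M * r + 1 + ∑ v, ∑ i, (1 - xx G e θ i v) ^ r -
      ∑ v ∈ nb (G (e i0)) z, (1 - xx G e θ i0 v) ^ r

/-- OSZ (copy of `MP_1ce445_stm/SZE.lean`; uses `stm.Stmt_DEG` OSU). -/
def Stmt_OSZ : Prop :=
  ∀ (n k M : ℕ) (G : Fin k → SimpleGraph (Fin n)) (e : Fin M → Fin k) (θ s : ℝ), SO G e θ s →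
    0 ≤ bb G e θ ∧ ∀ i, ((hi (G (e i)) θ).card : ℝ) ≤ n / M + bb G e θ

/-- OEV (copy of `MP_1ce445_stm/EVB.lean`; uses `stm.Stmt_DEG` OSZ). -/
def Stmt_OEV : Prop :=
  ∀ (n k M : ℕ) (G : Fin k → SimpleGraph (Fin n)) (e : Fin M → Fin k) (θ s : ℝ), SO G e θ s →
    ∀ v, 0 ≤ ev G e θ v ∧ 1 - ev G e θ v ≤ ∑ i, xx G e θ i v

/-- OXB (copy of `MP_1ce445_stm/XBD.lean`; uses OSU). -/
def Stmt_OXB : Prop :=
  ∀ (n k M : ℕ) (G : Fin k → SimpleGraph (Fin n)) (e : Fin M → Fin k) (θ s : ℝ), SO G e θ s →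
    0 ≤ Xb G e θ ∧ Xb G e θ ≤ 2 * M ^ 2 * θ * n

/-- OGA (copy of `MP_1ce445_stm/GAI.lean`; uses OSU `stm.Stmt_HIN` OEV). The inequality `hpt` of that proof for `v ∉ Z`; for `v ∈ Z` use
`0 ≤ ∑_i (1 - (1 - x_i)^r)` and `1 + κ/4 + g v/4 ≤ M + 2` (`κ ≤ 1`, `g v ≤ M`). -/
def Stmt_OGA : Prop :=
  ∀ (n k M r Δ : ℕ) (G : Fin k → SimpleGraph (Fin n)) (e : Fin M → Fin k) (θ s : ℝ)
    (Z : Finset (Fin n)), 2 ≤ r →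
    SO G e θ s → (∀ i v, MP_1ce445_fx.dg (G (e i)) (low (G (e i)) θ) v ≤ Δ) →
    (n : ℝ) + (θ - Δ / n) / 4 * (ov G e θ).card + Xb G e θ / 4 - (M + 2) * Z.card -
        32 ^ r * ∑ v ∈ univ \ Z, ev G e θ v ^ r ≤
      ∑ v, ∑ i, (1 - (1 - xx G e θ i v) ^ r)

/-- OGO (copy of `MP_1ce445_plt/GOD.lean`; uses `stm.Stmt_DEG`). -/
def Stmt_OGO : Prop :=
  ∀ (n k M : ℕ) (G : Fin k → SimpleGraph (Fin n)) (e : Fin M → Fin k) (θ s ω₁ : ℝ), SO G e θ s →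
    (∀ i, ((hi (G (e i)) θ).card : ℝ) ≤ (1 / M + s) * n) → 0 ≤ ω₁ →
    ∀ v, (dd G e θ v : ℝ) + EE G e v ≤ ω₁ * n →
      1 - (M * tt n k M / n + M * (s + ω₁)) ≤ ∑ i, xx G e θ i v

/-! ### Odd `n` -/

/-- OLN (60 lines). A graph with an odd number of vertices and without isolated vertices has a total dominating set with
at most `n - 1` elements (see `STP.lean` in `MP_1ce445_pl3` or `STU.lean` in `MP_1ce445_fx` for `gammaT ≤ NN n`; or: DG2 with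
`gammaT = n` gives that all degrees are 1, a perfect matching, `n` even). -/
def Stmt_OLN : Prop :=
  ∀ (n k : ℕ) (G : Fin k → SimpleGraph (Fin n)), Odd n → IsFactorization G →
    ∀ l, gammaT (G l) + 1 ≤ n

/-- OEM (80 lines; uses `fx.Stmt_DG2`; model `MP_1ce445_stm/EMO.lean`). `σ_l = n - γ_l = 1 + s_l`, `s_l = n - 1 - γ_l`; `∑_v (dg - 1) ≤ 3 σ_l² ≤ 3 (1 + 3 s_l²)`
(integers), `∑_l s_l² ≤ LO²`, `|ot| ≤ k`. -/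
def Stmt_OEM : Prop :=
  ∀ (n k M : ℕ) (G : Fin k → SimpleGraph (Fin n)) (e : Fin M → Fin k), IsFactorization G →
    (∀ l, gammaT (G l) + 1 ≤ n) → ∑ v, EE G e v ≤ 3 * (k + 3 * LO G e ^ 2)

/-- OER (150 lines; uses OEM `stm.Stmt_DMO` OXB; model `MP_1ce445_plt/ERU.lean`, terms `a₁ … a₇` as there, `A = 224 M`, `K₀ = 2 A`). New:
`E = ∑ EE ≤ 3 n + 9 s n LO` (OEM, `k ≤ n`, `LO ≤ s n`). First claim: the number is at most `K₀ E/n`. `a₄ ≤ 6 M² + 18 M² s LO`: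
`n (A a₄/n)^r ≤ n (12 A M²/n)^r + n (36 A M² s LO/n)^r ≤ 12 A M² + 36 A M² s LO` for `n ≥ 12 A M²`, `36 A M² s² ≤ 1`. `a₇ = EE v ≤ n/K₀`:
`∑ (A EE/n)^r ≤ (A/K₀)^(r-1) (A/n) E ≤ A (3 + 9 s LO)`. -/
def Stmt_OER : Prop :=
  ∀ M : ℕ, 2 ≤ M → ∃ K K₀ : ℝ, 1 ≤ K ∧ 1 ≤ K₀ ∧
    ∀ (n k r Δ : ℕ) (G : Fin k → SimpleGraph (Fin n)) (e : Fin M → Fin k) (θ s : ℝ),
    SO G e θ s → (∀ l, gammaT (G l) + 1 ≤ n) → K ≤ n → k ≤ n → K * s ≤ 1 → K * θ ≤ 1 → 2 ≤ r →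
    Δ ≤ n → (∀ i v, MP_1ce445_fx.dg (G (e i)) (low (G (e i)) θ) v ≤ Δ) →
    (((univ.filter (fun v => (n : ℝ) / K₀ < EE G e v)).card : ℝ) ≤ K * (1 + s * LO G e)) ∧
    32 ^ r * ∑ v ∈ univ \ univ.filter (fun v => (n : ℝ) / K₀ < EE G e v), ev G e θ v ^ r ≤
      n * (K * (M * tt n k M / n)) ^ r + n * (K * (Δ / n)) ^ r +
      K * (1 + s * (ov G e θ).card + s * LO G e + θ * Xb G e θ)

/-- OES (150 lines; uses OEM `stm.Stmt_DMO` OXB; copy of `MP_1ce445_stm/ERS.lean` for `r = 2`). `δ = tt²/n`; the two terms with `EE`: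
`n (E/n²)² ≤ (E/n)²/n ≤ …` as in OER, and `∑ (EE/n)² ≤ E/n ≤ 3 + 9 s LO` (`EE v ≤ n`, as the sum of the degrees of `v` is `n - 1`; DEG is
not needed: `EE v ≤ ∑_l dg (G l) univ v = n - 1`, `sum_degree`). -/
def Stmt_OES : Prop :=
  ∀ M : ℕ, 2 ≤ M → ∃ K : ℝ, 1 ≤ K ∧
    ∀ (n k Δ : ℕ) (G : Fin k → SimpleGraph (Fin n)) (e : Fin M → Fin k) (θ s : ℝ),
    SO G e θ s → (∀ l, gammaT (G l) + 1 ≤ n) → k ≤ n → Δ ≤ n →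
    (∀ i v, MP_1ce445_fx.dg (G (e i)) (low (G (e i)) θ) v ≤ Δ) →
    ∑ v, ev G e θ v ^ 2 ≤ K * (tt n k M ^ 2 / n + 1 + s * (ov G e θ).card + θ * Δ +
      s * LO G e + θ * Xb G e θ)

/-- OUN (100 lines; uses OSU OGA OER; model `MP_1ce445_plt/UN1.lean`). OGA with `Z` = the set of OER; ` (M+2) |Z| ≤ (M+2) K' (1 + s LO)`. -/
def Stmt_OUN : Prop :=
  ∀ M : ℕ, 2 ≤ M → ∃ K θ₀ : ℝ, 1 ≤ K ∧ 0 < θ₀ ∧ ∀ θ : ℝ, 0 < θ → θ ≤ θ₀ → ∃ s₀ : ℝ, 0 < s₀ ∧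
    ∀ s : ℝ, 0 < s → s ≤ s₀ →
    ∀ (n k r Δ : ℕ) (G : Fin k → SimpleGraph (Fin n)) (e : Fin M → Fin k), SO G e θ s →
    (∀ l, gammaT (G l) + 1 ≤ n) → K ≤ n → k ≤ n → 2 ≤ r →
    Δ ≤ n → (∀ i v, MP_1ce445_fx.dg (G (e i)) (low (G (e i)) θ) v ≤ Δ) → (Δ : ℝ) ≤ θ / 2 * n →
    gs G e ≤ ((M : ℝ) - 1) * n + M * r + n * (K * (M * tt n k M / n)) ^ r + n * (K * (Δ / n)) ^ r +
      LO G e / 100 + K

/-- OAV (120 lines; uses OSU OGA OXB OES; copy of `MP_1ce445_plt/ADV.lean`, OGA with `Z = ∅`). -/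
def Stmt_OAV : Prop :=
  ∀ M : ℕ, 2 ≤ M → ∃ K θ₀ : ℝ, 1 ≤ K ∧ 0 < θ₀ ∧ ∀ θ : ℝ, 0 < θ → θ ≤ θ₀ → ∃ s₀ : ℝ, 0 < s₀ ∧
    ∀ s : ℝ, 0 < s → s ≤ s₀ →
    ∀ (n k Δ : ℕ) (G : Fin k → SimpleGraph (Fin n)) (e : Fin M → Fin k), SO G e θ s →
    (∀ l, gammaT (G l) + 1 ≤ n) → k ≤ n → 2 ≤ Δ →
    (∀ i v, MP_1ce445_fx.dg (G (e i)) (low (G (e i)) θ) v ≤ Δ) →
    (∃ i v, MP_1ce445_fx.dg (G (e i)) (low (G (e i)) θ) v = Δ) →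
    gs G e ≤ ((M : ℝ) - 1) * n + K + K * (tt n k M ^ 2 / n) + LO G e / 100 - Δ / 2

/-- OUI (100 lines; uses OUN OAV; model `MP_1ce445_plt/UNI.lean`). If `Δ ≥ 2` and `Δ/2 ≥ K tt²/n + K`: OAV. Otherwise
`Δ ≤ 2 K tt²/n + 2 K + 2`, `Δ/n ≤ (4K + 2) τ` as `1/n ≤ τ ≤ 1`: OUN. -/
def Stmt_OUI : Prop :=
  ∀ M : ℕ, 2 ≤ M → ∃ θ s C ε₁ : ℝ, 0 < θ ∧ 12 * (M : ℝ) ^ 2 * θ ≤ 1 ∧ 0 < s ∧
    4 * (M : ℝ) * s ≤ 1 ∧ 1 ≤ C ∧ 0 < ε₁ ∧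
    ∀ (n k r : ℕ) (G : Fin k → SimpleGraph (Fin n)) (e : Fin M → Fin k), SO G e θ s →
    (∀ l, gammaT (G l) + 1 ≤ n) → C ≤ n → k ≤ n → 2 ≤ r →
    1 / (n : ℝ) ≤ tau n k M → tau n k M ≤ ε₁ →
    gs G e ≤ ((M : ℝ) - 1) * n + M * r + n * (C * tau n k M) ^ r + LO G e / 100 + C

/-- OAP (200 lines; uses OSU OEM `stm.Stmt_DMO` `plt.Stmt_HSU` OGO; copy of `MP_1ce445_plt/ADP.lean`). `M #{EE > ω₁ n/2} ≤ 2 M (3k + 9 LO²)/(ω₁ n)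
≤ 6 M/ω₁ + LO/100` if `1800 M s ≤ ω₁`. -/
def Stmt_OAP : Prop :=
  ∀ M : ℕ, 2 ≤ M → ∀ ω : ℝ, 0 < ω → ω ≤ 1 → ∃ θ s C : ℝ, 0 < θ ∧ 12 * (M : ℝ) ^ 2 * θ ≤ 1 ∧
    0 < s ∧ 4 * (M : ℝ) * s ≤ 1 ∧ 0 ≤ C ∧ ∃ n0 : ℕ, ∀ (n k r : ℕ) (G : Fin k → SimpleGraph (Fin n))
    (e : Fin M → Fin k), n0 ≤ n → k ≤ n → 1 ≤ r → SO G e θ s → (∀ l, gammaT (G l) + 1 ≤ n) →
    (∀ i, ((hi (G (e i)) θ).card : ℝ) ≤ (1 / M + s) * n) → M * tt n k M / n + 2 * ω ≤ 1 →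
    gs G e ≤ ((M : ℝ) - 1) * n + M * r + n * (M * tt n k M / n + ω) ^ r + LO G e / 100 + C

/-- OST (200 lines; uses `pln.Stmt_RNG` `pln.Stmt_CR4` `pln.Stmt_SE3`): copy of `MP_1ce445_pln/ST3.lean`; `NN n = n - 1`. The product is at most
`(n-1)^(k-|A|) ∏_A ((1 - p_j + t) n)`, and `(n/(n-1))^|A| ≤ 1 + 2|A|/(n-1)` is as close to 1 as needed (`|A|` is bounded). -/
def Stmt_OST : Prop :=
  ∀ M : ℕ, 2 ≤ M → ∀ θ κ : ℝ, 0 < θ → 0 < κ → ∃ n0 : ℕ, ∀ n k : ℕ, n0 ≤ n →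
    Odd n → (k : ℝ) / n ≤ cend M →
    ∀ G : Fin k → SimpleGraph (Fin n), IsFactorization G →
    (1 - 1 / (M : ℝ)) ^ M * ((n : ℝ) - 1) ^ k ≤ ∏ j, (gammaT (G j) : ℝ) →
    ∃ e : Fin M → Fin k, Function.Injective e ∧
      (∀ i, (gammaT (G (e i)) : ℝ) ≤ (1 - 1 / M + κ) * n) ∧
      (∀ i, ((hi (G (e i)) θ).card : ℝ) ≤ (1 / M + κ) * n) ∧ ((ov G e θ).card : ℝ) ≤ κ * n

/-- OSB (150 lines; uses `stm.Stmt_DEG` OLN OEM OST; copy of `MP_1ce445_pln/SB3.lean`). `∏_{ot} γ_l ≥ N^(k-M) (1 - 3 M κ)` for large `n` (`N = n - 1`), so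
`LO ≤ 6 M κ n`. `R0` = vertices in no `hi_i`: `|R0| n/(4M) ≤ ∑ EE ≤ 3 (k + 3 LO²)`, so `|R0| ≤ 12 M + 36 M (6 M κ)² n`, small. -/
def Stmt_OSB : Prop :=
  ∀ M : ℕ, 2 ≤ M → ∀ θ s : ℝ, 0 < θ → 12 * (M : ℝ) ^ 2 * θ ≤ 1 → 0 < s →
    4 * (M : ℝ) * s ≤ 1 → ∃ n0 : ℕ, ∀ n k : ℕ, n0 ≤ n → Odd n → 0 ≤ tt n k M →
    (k : ℝ) / n ≤ cend M →
    ∀ G : Fin k → SimpleGraph (Fin n), IsFactorization G →
    (1 - 1 / (M : ℝ)) ^ M * ((n : ℝ) - 1) ^ k ≤ ∏ j, (gammaT (G j) : ℝ) →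
    ∃ e : Fin M → Fin k, SO G e θ s ∧ ∀ i, ((hi (G (e i)) θ).card : ℝ) ≤ (1 / M + s) * n

/-! ### Result -/

/-- OUP (250 lines; uses `stm.Stmt_PRR` OLN OSB OUI OAP; models `MP_1ce445_plt/UPU.lean`, `MP_1ce445_pln/UP3.lean`). `ε₂ ≤ ε₁` (OUI) with
`log C ≤ (ε/4) (- log ε₂)`. If `τ < ε₂`: OUI with `r = ⌊(1+ε) ρ⌋ + 1`, `n (C τ)^r ≤ 1`. If `ε₂ ≤ τ`: OAP with `ω` and `r` as in UPP/UP3
(`r ≤ (1+ε) ρ + 2`, `n (τ+ω)^r ≤ 1`). If the product is larger than the bound then it is at least `(1-1/M)^M (n-1)^k`: OSB.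
`A = ((M-1) n + M r + 1 + C)/M`, PRR for `n - 1` instead of `n`, `R = LO/100`: `R/A ≤ LO/(n-1)`; no case distinction for `LO`.
`A ≤ N - N/M + (1+ε) ρ + C'`, `N = n - 1`. -/
def Stmt_OUP : Prop :=
  ∀ M : ℕ, 2 ≤ M → ∀ ε : ℝ, 0 < ε → ε < 1 → ∃ (C : ℝ) (n0 : ℕ), 0 ≤ C ∧ ∀ n k : ℕ, n0 ≤ n →
    Odd n → 1 / (n : ℝ) ≤ tau n k M → (k : ℝ) / n ≤ cend M →
    (P n k : ℝ) ≤ ((n : ℝ) - 1) ^ (k - M) * (((n : ℝ) - 1) - ((n : ℝ) - 1) / M +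
      (1 + ε) * (Real.log n / (- Real.log (tau n k M))) + C) ^ M

/-- OLO (80 lines; uses `ple.Stmt_SLV` `fx.Stmt_CLN`). SLV for `ε/2` and `n - 1`, `P (n-1) k ≤ P n k`; `tau (n-1) k M ≥ tau n k M`, so
`ρ(n-1) ≥ log (n-1)/(- log τ) ≥ (1 - ε/2) ρ` for large `n`. -/
def Stmt_OLO : Prop :=
  ∀ M : ℕ, 2 ≤ M → ∀ ε : ℝ, 0 < ε → ε < 1 → ∃ n0 : ℕ, ∀ n k : ℕ, n0 ≤ n → Odd n →
    (M - 1) * n + 3 * M * M ≤ M * k → (k : ℝ) ≤ cend M * ((n : ℝ) - 1) →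
    ((n : ℝ) - 1) ^ (k - M) * (((n : ℝ) - 1) - ((n : ℝ) - 1) / M +
      (1 - ε) * (Real.log n / (- Real.log (tau n k M)))) ^ M ≤ (P n k : ℝ)

/-- OPE (100 lines; uses `ple.Stmt_PEV` OUP OLO). Even `n`: PEV. Odd `n`: the number `R` as in `MP_1ce445_ple/PEV.lean`; `1/n ≤ tau` and
`k/n ≤ cend M` follow from the hypotheses. -/
def Stmt_OPE : Prop :=
  ∀ M : ℕ, 2 ≤ M → ∀ ε : ℝ, 0 < ε → ε < 1 → ∃ (C : ℝ) (n0 : ℕ), ∀ n k : ℕ, n0 ≤ n →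
    (M - 1) * n + 3 * M * M ≤ M * k → (k : ℝ) ≤ cend M * NN n →
    ∃ R : ℝ, (P n k : ℝ) = (NN n : ℝ) ^ (k - M) * ((1 - 1 / (M : ℝ)) * NN n + R) ^ M ∧
      (1 - ε) * (Real.log n / (- Real.log (tau n k M))) ≤ R ∧
      R ≤ (1 + ε) * (Real.log n / (- Real.log (tau n k M))) + (if Even n then 1 else C)

end Pool.Agent.Work.MP_1ce445_plo
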