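import Pool.Agent.Work.MP_1ce445_plo.Interface
import Pool.Agent.Work.MP_1ce445_plt.ERU

/-!
# Block OER: the powers of `ev` for odd `n` (copy of `MP_1ce445_plt/ERU.lean`)
-/

namespace Pool.Agent.Work.MP_1ce445_plo

open Finset Pool.Agent.Work.MP_1ce445_co_56 Pool.Agent.Work.MP_1ce445_lin
  Pool.Agent.Work.MP_1ce445_fx Pool.Agent.Work.MP_1ce445_stm Pool.Agent.Work.MP_1ce445_plt
  Pool.Agent.Work.MP_1ce445_pln

theorem stmt_OER (hE : Stmt_OEM) (hD : MP_1ce445_stm.Stmt_DMO) (hX : Stmt_OXB) : Stmt_OER := by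
  classical
  intro M hM2
  have hm : (2 : ℝ) ≤ (M : ℝ) := by exact_mod_cast hM2
  obtain ⟨A, hA⟩ : ∃ A : ℝ, A = 224 * (M : ℝ) := ⟨_, rfl⟩
  have hA1 : 1 ≤ A := by rw [hA]; linarith
  obtain ⟨c, hc⟩ : ∃ c : ℝ, c = A ^ 2 * (M : ℝ) ^ 4 := ⟨_, rfl⟩
  have hA0 : 0 < A := by
    rw [hA]
    positivity
  have hm1 : (1 : ℝ) ≤ (M : ℝ) := by linarith
  have hcA : A * (M : ℝ) ^ 3 ≤ c := by
    have h1 : 1 ≤ A * (M : ℝ) := one_le_mul_of_one_le_of_one_le hA1 hm1
    calc A * (M : ℝ) ^ 3 = A * (M : ℝ) ^ 3 * 1 := by ring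
      _ ≤ A * (M : ℝ) ^ 3 * (A * (M : ℝ)) := mul_le_mul_of_nonneg_left h1 (by positivity)
      _ = c := by rw [hc]; ring
  have hcB : A * (M : ℝ) ^ 2 ≤ A * (M : ℝ) ^ 3 :=
    mul_le_mul_of_nonneg_left (pow_le_pow_right₀ hm1 (by norm_num)) (by positivity)
  have hcC : A * (M : ℝ) ≤ A * (M : ℝ) ^ 2 := by
    refine mul_le_mul_of_nonneg_left ?_ (by positivity)
    nlinarith
  have hcD : A ≤ A * (M : ℝ) := le_mul_of_one_le_right (by positivity) hm1
  have hcE : A ^ 2 * (M : ℝ) ^ 2 ≤ c := by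
    rw [hc]
    exact mul_le_mul_of_nonneg_left (pow_le_pow_right₀ hm1 (by norm_num)) (by positivity)
  have hc1 : 1 ≤ c := by linarith
  refine ⟨100 * c, 2 * A, by linarith, by linarith, ?_⟩
  intro n k r Δ G e θ s hSt hγ hKn hkn hKs hKθ hr hΔn hΔ
  obtain ⟨hX1, hX2⟩ := hX n k M G e θ s hSt
  obtain ⟨two, pos, fac, inj, th, th', s0, s1, tnn, big, ovl, def'⟩ := hSt
  have hE2 := hE n k M G e fac hγ
  obtain ⟨hD1, hD2, hD3⟩ := hD n k M Δ G e θ th.le hΔ
  have hkN : (k : ℝ) ≤ (n : ℝ) := by exact_mod_cast hkn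
  have hF2 : ∑ v, (EE G e v : ℝ) ≤ 3 * (n : ℝ) + 9 * (LO G e : ℝ) ^ 2 := by
    have h1 : ((∑ v, EE G e v : ℕ) : ℝ) ≤ ((3 * (k + 3 * LO G e ^ 2) : ℕ) : ℝ) := by
      exact_mod_cast hE2
    push_cast at h1
    linarith
  have hN : (0 : ℝ) < (n : ℝ) := by exact_mod_cast pos
  have hdd : ∀ v, (dd G e θ v : ℝ) ≤ (M : ℝ) * Δ := by
    intro v
    have h1 : dd G e θ v ≤ M * Δ := by
      unfold dd
      refine (Finset.sum_le_sum (fun i _ => hΔ i v)).trans ?_
      simp
    exact_mod_cast h1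
  generalize hmM : (M : ℝ) = m at *
  generalize hNn : (n : ℝ) = N at *
  set L : ℝ := (LO G e : ℝ) with hL
  set O : ℝ := ((ov G e θ).card : ℝ) with hO
  set T : ℝ := tt n k M with hT
  set D : ℝ := ∑ v, (dd G e θ v : ℝ) with hDdef
  set F : ℝ := ∑ v, (EE G e v : ℝ) with hF
  set X : ℝ := Xb G e θ with hXdef
  have hL0 : 0 ≤ L := by positivity
  have hO0 : 0 ≤ O := by positivity
  have hD0 : 0 ≤ D := Finset.sum_nonneg (fun v _ => by positivity)
  have hF0 : 0 ≤ F := Finset.sum_nonneg (fun v _ => by positivity)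
  have hΔ0 : (0 : ℝ) ≤ (Δ : ℝ) := by positivity
  have hc0 : 0 < c := by linarith
  have hcs6 : 6 * (c * s) ≤ 1 := by
    have h1 : 0 ≤ c * s := by positivity
    have h2 : 100 * (c * s) ≤ 1 := by
      rw [← mul_assoc]
      exact hKs
    linarith
  have hcs : c * s ≤ 1 := by
    have h1 : 0 ≤ c * s := by positivity
    linarith
  have hcθ4 : 4 * (c * θ) ≤ 1 := by
    have h1 : 0 ≤ c * θ := by positivity
    have h2 : 100 * (c * θ) ≤ 1 := by
      rw [← mul_assoc]
      exact hKθ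
    linarith
  have hs1 : s ≤ 1 := by
    have h1 : 1 * s ≤ c * s := mul_le_mul_of_nonneg_right hc1 s0.le
    linarith
  have hm0 : 0 < m := by linarith
  obtain ⟨B, hB⟩ : ∃ B : ℝ, B = A / N := ⟨_, rfl⟩
  have hB0 : 0 < B := by
    rw [hB]
    exact div_pos hA0 hN
  have hev0 : ∀ v, 32 * ev G e θ v = (32 * (m / N)) * (m * O + (m + 1) * T + 2 * m ^ 2 / N * D +
        2 * m ^ 2 / N * F + 2 * m * X + (dd G e θ v : ℝ) + (EE G e v : ℝ)) := by
    intro v
    rw [ev, bb, Finset.sum_add_distrib, hmM, hNn]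
    ring
  clear_value L O T D F X
  -- the pieces
  have P1 : N * (B * (m * O)) ^ r ≤ c * (s * O) := by
    have hy : B * (m * O) ≤ A * m * s := by
      rw [hB, div_mul_eq_mul_div, div_le_iff₀ hN]
      calc A * (m * O) ≤ A * (m * (s * N)) :=
            mul_le_mul_of_nonneg_left (mul_le_mul_of_nonneg_left ovl hm0.le) hA0.le
        _ = A * m * s * N := by ring
    have hb : A * m * s ≤ 1 := by
      refine le_trans ?_ hcs
      exact mul_le_mul_of_nonneg_right (by linarith) s0.le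
    have h := Pool.Agent.Work.MP_1ce445_plt.ERU_piece r hr (B * (m * O)) (A * m * s) (by positivity) hb hy
    calc N * (B * (m * O)) ^ r ≤ N * (A * m * s * (B * (m * O))) := mul_le_mul_of_nonneg_left h hN.le
      _ = A ^ 2 * m ^ 2 * (s * O) := by
          rw [hB]
          field_simp
      _ ≤ c * (s * O) := mul_le_mul_of_nonneg_right hcE (by positivity)
  have P2 : N * (B * ((m + 1) * T)) ^ r ≤ N * (100 * c * (m * T / N)) ^ r := by
    refine mul_le_mul_of_nonneg_left (pow_le_pow_left₀ (by positivity) ?_ r) hN.le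
    have h1 : B * ((m + 1) * T) = A * (m + 1) * (T / N) := by
      rw [hB]
      ring
    have h2 : 100 * c * (m * T / N) = 100 * c * m * (T / N) := by ring
    rw [h1, h2]
    refine mul_le_mul_of_nonneg_right ?_ (by positivity)
    have h3 : A * (m + 1) ≤ A * (2 * m) := mul_le_mul_of_nonneg_left (by linarith) hA0.le
    have h4 : A * (2 * m) ≤ c * (2 * m) := mul_le_mul_of_nonneg_right (by linarith) (by positivity)
    have h5 : c * (2 * m) ≤ 100 * c * m := by
      have h6 : 0 ≤ c * m := by positivity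
      have h7 : c * (2 * m) = 2 * (c * m) := by ring
      have h8 : 100 * c * m = 100 * (c * m) := by ring
      linarith
    linarith
  have P36 : N * (B * (2 * m ^ 2 / N * D)) ^ r + N * (B * (m * Δ)) ^ r ≤ N * (100 * c * (Δ / N)) ^ r := by
    rw [← mul_add]
    refine mul_le_mul_of_nonneg_left (Pool.Agent.Work.MP_1ce445_plt.ERU_add r hr _ _ _ (by positivity) (by positivity) ?_) hN.le
    have h1 : B * (2 * m ^ 2 / N * D) ≤ 2 * (A * m ^ 3) * (Δ / N) := by
      have h2 : B * (2 * m ^ 2 / N * D) ≤ B * (2 * m ^ 2 / N * (m * Δ * N)) :=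
        mul_le_mul_of_nonneg_left (mul_le_mul_of_nonneg_left hD2 (by positivity)) hB0.le
      refine h2.trans (le_of_eq ?_)
      rw [hB]
      field_simp
    have h3 : B * (m * Δ) = A * m * (Δ / N) := by
      rw [hB]
      ring
    have h4 : 0 ≤ Δ / N := by positivity
    have h5 : 2 * (A * m ^ 3) * (Δ / N) ≤ 2 * c * (Δ / N) :=
      mul_le_mul_of_nonneg_right (by linarith) h4
    have h6 : A * m * (Δ / N) ≤ c * (Δ / N) := mul_le_mul_of_nonneg_right (by linarith) h4
    have h7 : 0 ≤ c * (Δ / N) := by positivity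
    rw [h3]
    have h8 : 100 * c * (Δ / N) = 2 * c * (Δ / N) + c * (Δ / N) + 97 * (c * (Δ / N)) := by ring
    linarith
  have hLN : L ^ 2 ≤ s * L * N := by
    calc L ^ 2 = L * L := by ring
      _ ≤ L * (s * N) := mul_le_mul_of_nonneg_left def' hL0
      _ = s * L * N := by ring
  have hsL0 : 0 ≤ s * L := by positivity
  have hFN : F ≤ N * (3 + 9 * (s * L)) := by
    have h1 : N * (3 + 9 * (s * L)) = 3 * N + 9 * (s * L * N) := by ring
    rw [h1]
    linarith
  have P4 : N * (B * (2 * m ^ 2 / N * F)) ^ r ≤ 6 * c + 18 * c * (s * L) := by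
    have hFN' : F / N ≤ 3 + 9 * (s * L) := by
      rw [div_le_iff₀ hN]
      linarith
    have hyN : N * (B * (2 * m ^ 2 / N * F)) = 2 * (A * m ^ 2) * (F / N) := by
      rw [hB]
      field_simp
    have hNy : N * (B * (2 * m ^ 2 / N * F)) ≤ 2 * (A * m ^ 2) * (3 + 9 * (s * L)) := by
      rw [hyN]
      exact mul_le_mul_of_nonneg_left hFN' (show 0 ≤ 2 * (A * m ^ 2) by positivity)
    have hNy' : N * (B * (2 * m ^ 2 / N * F)) ≤ 2 * c * (3 + 9 * (s * L)) := by
      refine hNy.trans (mul_le_mul_of_nonneg_right (by linarith) (by positivity))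
    have hy1 : B * (2 * m ^ 2 / N * F) ≤ 1 := by
      have h1 : s * L ≤ s * (s * N) := mul_le_mul_of_nonneg_left def' s0.le
      have h2 : 18 * (c * (s * L)) ≤ 18 * (c * s) * N := by
        have h3 : c * (s * L) ≤ c * (s * (s * N)) := mul_le_mul_of_nonneg_left h1 hc0.le
        have h4 : c * (s * (s * N)) ≤ c * s * N := by
          have h5 : 0 ≤ c * s * N := by positivity
          calc c * (s * (s * N)) = s * (c * s * N) := by ring
            _ ≤ 1 * (c * s * N) := mul_le_mul_of_nonneg_right hs1 h5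
            _ = c * s * N := by ring
        have h6 : 18 * (c * s) * N = 18 * (c * s * N) := by ring
        rw [h6]
        linarith
      have h3 : 18 * (c * s) * N ≤ 18 / 100 * N := by
        refine mul_le_mul_of_nonneg_right ?_ hN.le
        have h4 : 100 * (c * s) ≤ 1 := by
          rw [← mul_assoc]
          exact hKs
        linarith
      have h7 : N * (B * (2 * m ^ 2 / N * F)) ≤ N * 1 := by
        have h8 : 2 * c * (3 + 9 * (s * L)) = 6 * c + 18 * (c * (s * L)) := by ring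
        rw [h8] at hNy'
        linarith
      exact le_of_mul_le_mul_left h7 hN
    have h := Pool.Agent.Work.MP_1ce445_plt.ERU_piece r hr (B * (2 * m ^ 2 / N * F)) 1 (by positivity) le_rfl hy1
    calc N * (B * (2 * m ^ 2 / N * F)) ^ r ≤ N * (1 * (B * (2 * m ^ 2 / N * F))) :=
          mul_le_mul_of_nonneg_left h hN.le
      _ = N * (B * (2 * m ^ 2 / N * F)) := by ring
      _ ≤ 2 * c * (3 + 9 * (s * L)) := hNy'
      _ = 6 * c + 18 * c * (s * L) := by ring
  have P5 : N * (B * (2 * m * X)) ^ r ≤ 8 * c * (θ * X) := by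
    have hy : B * (2 * m * X) ≤ 4 * (A * m ^ 3) * θ := by
      rw [hB, div_mul_eq_mul_div, div_le_iff₀ hN]
      calc A * (2 * m * X) ≤ A * (2 * m * (2 * m ^ 2 * θ * N)) :=
            mul_le_mul_of_nonneg_left (mul_le_mul_of_nonneg_left hX2 (by positivity)) hA0.le
        _ = 4 * (A * m ^ 3) * θ * N := by ring
    have hb : 4 * (A * m ^ 3) * θ ≤ 1 := by
      have h1 : 4 * (A * m ^ 3) * θ ≤ 4 * c * θ := mul_le_mul_of_nonneg_right (by linarith) th.le
      have h2 : 4 * c * θ = 4 * (c * θ) := by ring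
      linarith
    have h := Pool.Agent.Work.MP_1ce445_plt.ERU_piece r hr (B * (2 * m * X)) (4 * (A * m ^ 3) * θ) (by positivity) hb hy
    calc N * (B * (2 * m * X)) ^ r ≤ N * (4 * (A * m ^ 3) * θ * (B * (2 * m * X))) :=
          mul_le_mul_of_nonneg_left h hN.le
      _ = 8 * c * (θ * X) := by
          rw [hB, hc]
          field_simp
          ring
  have P6 : ∀ v, (B * (dd G e θ v : ℝ)) ^ r ≤ (B * (m * Δ)) ^ r := fun v =>
    pow_le_pow_left₀ (by positivity) (mul_le_mul_of_nonneg_left (hdd v) hB0.le) r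
  set Z : Finset (Fin n) := univ.filter (fun v => N / (2 * A) < EE G e v) with hZ
  have P7 : ∑ v ∈ univ \ Z, (B * (EE G e v : ℝ)) ^ r ≤ 3 * c + 9 * c * (s * L) := by
    have h1 : ∀ v ∈ univ \ Z, (B * (EE G e v : ℝ)) ^ r ≤ B * (EE G e v : ℝ) := by
      intro v hv
      have hv' : (EE G e v : ℝ) ≤ N / (2 * A) := by
        by_contra hcon
        rw [not_le] at hcon
        exact (Finset.mem_sdiff.1 hv).2 (Finset.mem_filter.2 ⟨mem_univ _, hcon⟩)
      have hy : B * (EE G e v : ℝ) ≤ 1 := by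
        calc B * (EE G e v : ℝ) ≤ B * (N / (2 * A)) := mul_le_mul_of_nonneg_left hv' hB0.le
          _ = 1 / 2 := by
              rw [hB]
              field_simp
          _ ≤ 1 := by norm_num
      have h := Pool.Agent.Work.MP_1ce445_plt.ERU_piece r hr (B * (EE G e v : ℝ)) 1 (by positivity) le_rfl hy
      linarith
    calc ∑ v ∈ univ \ Z, (B * (EE G e v : ℝ)) ^ r ≤ ∑ v ∈ univ \ Z, B * (EE G e v : ℝ) :=
          Finset.sum_le_sum h1
      _ ≤ ∑ v, B * (EE G e v : ℝ) :=
          Finset.sum_le_sum_of_subset_of_nonneg (Finset.sdiff_subset)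
            (fun v _ _ => by positivity)
      _ = B * F := by rw [← Finset.mul_sum, hF]
      _ ≤ B * (N * (3 + 9 * (s * L))) := mul_le_mul_of_nonneg_left hFN hB0.le
      _ = A * (3 + 9 * (s * L)) := by
          rw [hB]
          field_simp
      _ ≤ c * (3 + 9 * (s * L)) := mul_le_mul_of_nonneg_right (by linarith) (by positivity)
      _ = 3 * c + 9 * c * (s * L) := by ring
  have hZc : ((Z.card : ℕ) : ℝ) ≤ 100 * c * (1 + s * L) := by
    have h1 : (Z.card : ℝ) * (N / (2 * A)) ≤ F := by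
      calc (Z.card : ℝ) * (N / (2 * A)) = ∑ _v ∈ Z, N / (2 * A) := by
            rw [Finset.sum_const, nsmul_eq_mul]
        _ ≤ ∑ v ∈ Z, (EE G e v : ℝ) :=
            Finset.sum_le_sum (fun v hv => (Finset.mem_filter.1 hv).2.le)
        _ ≤ ∑ v, (EE G e v : ℝ) :=
            Finset.sum_le_sum_of_subset_of_nonneg (Finset.subset_univ _)
            (fun v _ _ => Nat.cast_nonneg _)
        _ = F := hF.symm
    have h2 : (Z.card : ℝ) * N ≤ (2 * A * (3 + 9 * (s * L))) * N := by
      have h3 : (Z.card : ℝ) * N = (Z.card : ℝ) * (N / (2 * A)) * (2 * A) := by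
        field_simp
      rw [h3]
      calc (Z.card : ℝ) * (N / (2 * A)) * (2 * A) ≤ F * (2 * A) :=
            mul_le_mul_of_nonneg_right h1 (by positivity)
        _ ≤ N * (3 + 9 * (s * L)) * (2 * A) := mul_le_mul_of_nonneg_right hFN (by positivity)
        _ = _ := by ring
    have h4 := le_of_mul_le_mul_right h2 hN
    refine h4.trans ?_
    have h5 : 2 * A * (3 + 9 * (s * L)) ≤ 2 * c * (3 + 9 * (s * L)) :=
      mul_le_mul_of_nonneg_right (by linarith) (by positivity)
    refine h5.trans ?_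
    have h6 : 0 ≤ c * (s * L) := by positivity
    have h7 : 100 * c * (1 + s * L) = 100 * c + 100 * (c * (s * L)) := by ring
    have h8 : 2 * c * (3 + 9 * (s * L)) = 6 * c + 18 * (c * (s * L)) := by ring
    rw [h7, h8]
    linarith
  refine ⟨hZc, ?_⟩
  -- the sum
  have hev : ∀ v, 32 ^ r * ev G e θ v ^ r ≤ (B * (m * O)) ^ r + (B * ((m + 1) * T)) ^ r +
      (B * (2 * m ^ 2 / N * D)) ^ r + (B * (2 * m ^ 2 / N * F)) ^ r + (B * (2 * m * X)) ^ r +
      (B * (dd G e θ v : ℝ)) ^ r + (B * (EE G e v : ℝ)) ^ r := by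
    intro v
    have h1 := hev0 v
    have h2 : 7 * (32 * (m / N)) = B := by
      rw [hB, hA]
      ring
    rw [← mul_pow, h1]
    have h3 := Pool.Agent.Work.MP_1ce445_plt.ERU_seven2 r (32 * (m / N)) (m * O) ((m + 1) * T) (2 * m ^ 2 / N * D) (2 * m ^ 2 / N * F)
      (2 * m * X) (dd G e θ v : ℝ) (EE G e v : ℝ) (by positivity) (by positivity) (by positivity)
      (by positivity) (by positivity) (by positivity) (by positivity) (by positivity)
    rw [h2] at h3
    exact h3
  have hcard : ∀ x : ℝ, 0 ≤ x → ∑ _v ∈ univ \ Z, x ≤ N * x := by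
    intro x hx
    rw [Finset.sum_const, nsmul_eq_mul]
    refine mul_le_mul_of_nonneg_right ?_ hx
    rw [← hNn]
    have h1 : (univ \ Z).card ≤ (univ : Finset (Fin n)).card := Finset.card_le_card Finset.sdiff_subset
    rw [Finset.card_univ, Fintype.card_fin] at h1
    exact_mod_cast h1
  rw [Finset.mul_sum]
  refine (Finset.sum_le_sum (fun v _ => hev v)).trans ?_
  simp only [Finset.sum_add_distrib]
  have P6' : ∑ v ∈ univ \ Z, (B * (dd G e θ v : ℝ)) ^ r ≤ N * (B * (m * Δ)) ^ r :=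
    (Finset.sum_le_sum (fun v _ => P6 v)).trans (hcard _ (by positivity))
  have e1 := hcard ((B * (m * O)) ^ r) (by positivity)
  have e2 := hcard ((B * ((m + 1) * T)) ^ r) (by positivity)
  have e3 := hcard ((B * (2 * m ^ 2 / N * D)) ^ r) (by positivity)
  have e4 := hcard ((B * (2 * m ^ 2 / N * F)) ^ r) (by positivity)
  have e5 := hcard ((B * (2 * m * X)) ^ r) (by positivity)
  have hK : 100 * c * (1 + s * O + s * L + θ * X) = 100 * c + 100 * (c * (s * O)) +
      100 * (c * (s * L)) + 100 * (c * (θ * X)) := by ring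
  rw [hK]
  have q1 : 0 ≤ c * (s * O) := by positivity
  have q2 : 0 ≤ c * (s * L) := by positivity
  have q3 : 0 ≤ c * (θ * X) := by positivity
  have f4 : 6 * c + 18 * c * (s * L) = 6 * c + 18 * (c * (s * L)) := by ring
  have f7 : 3 * c + 9 * c * (s * L) = 3 * c + 9 * (c * (s * L)) := by ring
  have f5 : 8 * c * (θ * X) = 8 * (c * (θ * X)) := by ring
  rw [f4] at P4
  rw [f7] at P7
  rw [f5] at P5
  linarith

end Pool.Agent.Work.MP_1ce445_plo
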